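import Mathlib

set_option autoImplicit false

namespace Pool.Agent.MP_88e4f4_nt.TK

theorem z10_real {x M Kr kr : ℝ} (hx : 1 ≤ x) (hM : 1000 * x ^ 5 ≤ M) (hk0 : 0 ≤ kr)
    (hk : 5 * x * kr ≤ 2 * (M + 1)) (hK : M + 1 ≤ x * (Kr + 1))
    (hL : 30 * x ^ 2 * (kr + 1) ≤ Kr + 30 * x ^ 2) :
    x * (30 * x ^ 2 * (kr + 1)) * (M * (30 * x ^ 2) + kr) + 300 * x ^ 3 * (x * (M * (30 * x ^ 2 - 1) +
      (Kr + 1) * (kr + ((30 * x ^ 2 - 1) * (30 * x ^ 2) / 2 + 1)))) <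
      300 * x ^ 3 * ((M - 1) * Kr - 1) := by
  have hx0 : 0 < x := by linarith
  have h2 : 1 ≤ x ^ 2 := one_le_pow₀ hx
  have h3 : 1 ≤ x ^ 3 := one_le_pow₀ hx
  have h4 : 1 ≤ x ^ 4 := one_le_pow₀ hx
  have h5 : 1 ≤ x ^ 5 := one_le_pow₀ hx
  have h24 : x ^ 2 ≤ x ^ 4 := pow_le_pow_right₀ hx (by norm_num)
  have h34 : x ^ 3 ≤ x ^ 4 := pow_le_pow_right₀ hx (by norm_num)
  have h15 : x ≤ x ^ 5 := by
    have := pow_le_pow_right₀ hx (show 1 ≤ 5 by norm_num)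
    rwa [pow_one] at this
  have h13 : x ≤ x ^ 3 := by
    have := pow_le_pow_right₀ hx (show 1 ≤ 3 by norm_num)
    rwa [pow_one] at this
  have hM0 : 1000 ≤ M := by linarith
  have hKx : 999 * x ^ 4 ≤ Kr := by
    have e1 : x * (999 * x ^ 4) ≤ x * Kr := by
      have e2 : x * (999 * x ^ 4) = 999 * x ^ 5 := by ring
      have e3 : x * (Kr + 1) = x * Kr + x := by ring
      rw [e2]
      linarith
    exact le_of_mul_le_mul_left e1 hx0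
  have hK0 : 999 ≤ Kr := by linarith
  have hK1 : 0 < Kr := by linarith
  have hM1 : 0 < M := by linarith
  have hP : 0 < M * Kr := mul_pos hM1 hK1
  have hxk : x * kr ≤ 2 / 5 * (M + 1) := by linarith
  have hxk' : x * kr ≤ 0.4004 * M := by linarith
  -- first term
  have t1 : x * (30 * x ^ 2 * (kr + 1)) * (M * (30 * x ^ 2) + kr) ≤ 31.32 * (x ^ 3 * (M * Kr)) := by
    have e1 : x * (30 * x ^ 2 * (kr + 1)) * (M * (30 * x ^ 2) + kr) =
        (30 * x ^ 2 * (kr + 1)) * (30 * x ^ 3 * M + x * kr) := by ring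
    have e2 : 30 * x ^ 2 * (kr + 1) ≤ 1.0301 * Kr := by linarith
    have e3 : 30 * x ^ 3 * M + x * kr ≤ 30.4004 * (x ^ 3 * M) := by
      have : 1 * M ≤ x ^ 3 * M := mul_le_mul_of_nonneg_right h3 hM1.le
      linarith
    rw [e1]
    calc (30 * x ^ 2 * (kr + 1)) * (30 * x ^ 3 * M + x * kr)
        ≤ (1.0301 * Kr) * (30.4004 * (x ^ 3 * M)) :=
          mul_le_mul e2 e3 (by positivity) (by positivity)
      _ ≤ 31.32 * (x ^ 3 * (M * Kr)) := by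
          have : 0 ≤ x ^ 3 * (M * Kr) := by positivity
          nlinarith
  have t2 : x * (M * (30 * x ^ 2 - 1)) ≤ 0.0301 * (M * Kr) := by
    have e1 : x * (M * (30 * x ^ 2 - 1)) ≤ 30 * x ^ 3 * M := by nlinarith
    have e2 : 30 * x ^ 3 ≤ 0.0301 * Kr := by linarith
    have e3 := mul_le_mul_of_nonneg_right e2 hM1.le
    linarith
  have t3 : x * ((Kr + 1) * (kr + ((30 * x ^ 2 - 1) * (30 * x ^ 2) / 2 + 1))) ≤ 0.8514 * (M * Kr) := by
    have e1 : x * ((Kr + 1) * (kr + ((30 * x ^ 2 - 1) * (30 * x ^ 2) / 2 + 1))) =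
        (Kr + 1) * (x * kr + (450 * x ^ 5 - 15 * x ^ 3 + x)) := by ring
    have e2 : Kr + 1 ≤ 1.0011 * Kr := by linarith
    have e3 : x * kr + (450 * x ^ 5 - 15 * x ^ 3 + x) ≤ 0.8504 * M := by linarith
    have e4 : 0 ≤ x * kr + (450 * x ^ 5 - 15 * x ^ 3 + x) := by
      have : x ^ 3 ≤ x ^ 5 := pow_le_pow_right₀ hx (by norm_num)
      have : 0 ≤ x * kr := by positivity
      linarith
    rw [e1]
    calc (Kr + 1) * (x * kr + (450 * x ^ 5 - 15 * x ^ 3 + x)) ≤ (1.0011 * Kr) * (0.8504 * M) :=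
          mul_le_mul e2 e3 e4 (by positivity)
      _ ≤ 0.8514 * (M * Kr) := by nlinarith
  have t4 : Kr + 1 ≤ 0.0011 * (M * Kr) := by
    have := mul_le_mul_of_nonneg_right hM0 hK1.le
    linarith
  have e5 : x * (M * (30 * x ^ 2 - 1) + (Kr + 1) * (kr + ((30 * x ^ 2 - 1) * (30 * x ^ 2) / 2 + 1))) ≤
      0.8815 * (M * Kr) := by
    rw [mul_add]
    linarith
  have e6 := mul_le_mul_of_nonneg_left e5 (show 0 ≤ 300 * x ^ 3 by positivity)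
  have e7 : 0.9989 * (M * Kr) ≤ (M - 1) * Kr - 1 := by
    have : (M - 1) * Kr = M * Kr - Kr := by ring
    linarith
  have e8 := mul_le_mul_of_nonneg_left e7 (show 0 ≤ 300 * x ^ 3 by positivity)
  have e9 : 0 < x ^ 3 * (M * Kr) := by positivity
  nlinarith

theorem z10_sq {m : ℕ} (hm : 4 ≤ m) : m ^ 2 ≤ 2 ^ m := by
  induction m, hm using Nat.le_induction with
  | base => norm_num
  | succ n hn ih =>
    rw [pow_succ 2 n]
    nlinarith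

/-- ROW Z10. Numerical facts for the curve part: `d + 1 = 30 κ ^ 2`, `k = K / (30 κ ^ 2)`,
`L = (d + 1) (k + 1) - 1`, `H = d (d + 1) / 2 + 1`.

Proof. `2 K < (m + 1)(24 κ - 1)` gives `K < 12 κ (m + 1)`; `30 κ ^ 2 k ≤ K`, so `5 κ k ≤ 2 (m + 1)`.
`m ≥ 1000 κ ^ 5 ≥ 1000`. (1) `k + 2 ≤ m`. (2) `(d + 1)(k + 1) ≥ K + 1`. (3) `2 (L + H) =
2 (d+1) k + 2 (d+1) + d (d+1) > 2 (d+1) k + d (d + 3)` (`d (d+1)` is even).
(4) `L + 1 ≤ K + 30 κ ^ 2 ≤ 12 κ (m + 1) + 30 κ ^ 2 ≤ m ^ 2 ≤ 2 ^ m`.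
(5) `κ K ≥ m + 1 - κ ≥ 999 κ ^ 5`, so `K ≥ 999 κ ^ 4`. `κ H = κ (450 κ ^ 4 - 15 κ ^ 2 + 1) ≤ 450 κ ^ 5 ≤ 0.45 m`,
`κ k ≤ 0.4 (m + 1)`, `κ m d ≤ 30 κ ^ 3 m ≤ (30 / 999) m K`, `L + 1 ≤ K + 30 κ ^ 2 ≤ 1.031 K`,
`m (d + 1) + k ≤ 30 κ ^ 2 m + 0.4 (m + 1) ≤ 30.41 κ ^ 2 m`. So the left side is at most
`31.4 κ ^ 3 m K + 300 κ ^ 3 (0.0301 m K + (K + 1)(0.85 m + 0.4)) ≤ 300 κ ^ 3 (0.105 + 0.0301 + 0.852) m K`
and the right side is at least `300 κ ^ 3 * 0.998 m K`. -/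
theorem curve_params {κ m K d k L H : ℕ} (hκ : 1 ≤ κ) (hm : 1000 * κ ^ 5 ≤ m)
    (hd : d = 30 * κ ^ 2 - 1) (hk : k = K / (30 * κ ^ 2)) (hL : L = (d + 1) * (k + 1) - 1)
    (hH : H = d * (d + 1) / 2 + 1) (hK1 : m + 1 ≤ κ * (K + 1))
    (hK2 : 2 * K < (m + 1) * (24 * κ - 1)) :
    k + 2 ≤ m ∧ K ≤ L ∧ 2 * (d + 1) * k + d * (d + 3) < 2 * (L + H) ∧ L + 1 ≤ 2 ^ m ∧
      κ * (L + 1) * (m * (d + 1) + k) + 300 * κ ^ 3 * (κ * (m * d + (K + 1) * (k + H))) <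
        300 * κ ^ 3 * ((m - 1) * K - 1) := by
  have hκ0 : 0 < κ := hκ
  have h2 : 1 ≤ κ ^ 2 := Nat.one_le_pow _ _ hκ
  have h5 : κ ≤ κ ^ 5 := by
    calc κ = κ ^ 1 := (pow_one κ).symm
      _ ≤ κ ^ 5 := Nat.pow_le_pow_right hκ0 (by norm_num)
  have h25 : κ ^ 2 ≤ κ ^ 5 := Nat.pow_le_pow_right hκ0 (by norm_num)
  have hm0 : 1000 ≤ m := by omega
  have hd1 : d + 1 = 30 * κ ^ 2 := by omega
  have hkK : 30 * κ ^ 2 * k ≤ K := by
    rw [hk]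
    exact Nat.mul_div_le _ _
  have hkK2 : K < 30 * κ ^ 2 * (k + 1) := by
    rw [hk]
    exact Nat.lt_mul_div_succ _ (by positivity)
  have hK3 : 2 * K < 24 * κ * (m + 1) := by
    have h1 : (m + 1) * (24 * κ - 1) ≤ (m + 1) * (24 * κ) := Nat.mul_le_mul_left _ (Nat.sub_le _ _)
    have h3 : (m + 1) * (24 * κ) = 24 * κ * (m + 1) := Nat.mul_comm _ _
    omega
  have hk5 : 5 * κ * k < 2 * (m + 1) := by
    have h1 : 12 * κ * (5 * κ * k) < 12 * κ * (2 * (m + 1)) := by nlinarith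
    exact Nat.lt_of_mul_lt_mul_left h1
  have hk6 : 5 * k < 2 * (m + 1) := by
    refine lt_of_le_of_lt ?_ hk5
    have h1 : 5 * 1 * k ≤ 5 * κ * k := Nat.mul_le_mul_right _ (Nat.mul_le_mul_left _ hκ)
    omega
  have hLD : L + 1 = 30 * κ ^ 2 * (k + 1) := by
    have h1 : 0 < (d + 1) * (k + 1) := by positivity
    rw [← hd1]
    omega
  have hL2 : L + 1 ≤ K + 30 * κ ^ 2 := by
    rw [hLD, Nat.mul_add, Nat.mul_one]
    omega
  have hH2 : 2 * H = d * (d + 1) + 2 := by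
    have h1 : 2 * (d * (d + 1) / 2) = d * (d + 1) := Nat.mul_div_cancel' (Nat.even_mul_succ_self d).two_dvd
    omega
  refine ⟨by omega, by omega, ?_, ?_, ?_⟩
  · have h1 : L + 1 = (d + 1) * (k + 1) := by rw [hLD, hd1]
    nlinarith
  · refine le_trans ?_ (z10_sq (by omega))
    have h1 : 1000 * (κ * (m + 1)) ≤ m * (m + 1) := by
      have h3 : (1000 * κ) * (m + 1) ≤ m * (m + 1) := Nat.mul_le_mul_right _ (by omega)
      nlinarith
    have h3 : 1000 * κ ^ 2 ≤ m := by omega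
    nlinarith
  · have hmK : 1 ≤ (m - 1) * K := by
      have h1 : 0 < K := by
        by_contra h
        have h1 : K = 0 := by omega
        subst h1
        have h3 : κ ≤ κ ^ 5 := h5
        omega
      exact Nat.mul_pos (by omega) h1
    have hr := z10_real (x := (κ : ℝ)) (M := (m : ℝ)) (Kr := (K : ℝ)) (kr := (k : ℝ))
      (by exact_mod_cast hκ) (by exact_mod_cast hm) (Nat.cast_nonneg _) (by exact_mod_cast hk5.le)
      (by exact_mod_cast hK1) (by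
        have h1 := hL2
        rw [hLD] at h1
        exact_mod_cast h1)
    have hL' : (L : ℝ) + 1 = 30 * (κ : ℝ) ^ 2 * ((k : ℝ) + 1) := by exact_mod_cast hLD
    have hd' : (d : ℝ) = 30 * (κ : ℝ) ^ 2 - 1 := by
      have : (d : ℝ) + 1 = 30 * (κ : ℝ) ^ 2 := by exact_mod_cast hd1
      linarith
    have hH' : (H : ℝ) = (30 * (κ : ℝ) ^ 2 - 1) * (30 * (κ : ℝ) ^ 2) / 2 + 1 := by
      have : 2 * (H : ℝ) = (d : ℝ) * ((d : ℝ) + 1) + 2 := by exact_mod_cast hH2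
      rw [hd'] at this
      linarith
    rw [← Nat.cast_lt (α := ℝ)]
    push_cast [Nat.cast_sub hmK, Nat.cast_sub (show 1 ≤ m by omega)]
    rw [hL', hH', hd']
    rw [sub_add_cancel]
    exact hr

/-- ROW Z10 (second part). From the numerical inequality to powers.

Proof. `((d+1)(k+1))! ≤ (L + 1) ^ (L + 1) ≤ 2 ^ (m (L + 1))` (`Nat.factorial_le_pow`). So the left side is at
most `2 ^ (κ (L + 1) (m + m d + k)) * y ^ (κ t (m d + (K + 1)(k + H)))`, where `s + t = L + 1`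
(`(2 ^ (m d + k)) ^ s (2 ^ (m d + k)) ^ t = 2 ^ ((m d + k)(L + 1))`). Put
`E = ((m - 1) K - 1) - κ (m d + (K + 1)(k + H))`, positive by `hnum`; then
`2 ^ (κ (L + 1)(m (d + 1) + k)) < 2 ^ (300 κ ^ 3 E) ≤ y ^ E ≤ y ^ (E t)` (`t ≥ 1` as `s ≤ L`). -/
theorem curve_powers {κ m y K d k L H s t : ℕ} (hκ : 1 ≤ κ) (hy : 2 ^ (300 * κ ^ 3) ≤ y)
    (hL : L = (d + 1) * (k + 1) - 1) (hL2 : L + 1 ≤ 2 ^ m)
    (hnum : κ * (L + 1) * (m * (d + 1) + k) + 300 * κ ^ 3 * (κ * (m * d + (K + 1) * (k + H))) <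
        300 * κ ^ 3 * ((m - 1) * K - 1))
    (hst : s + t = (d + 1) * (k + 1)) (hs : s ≤ L) :
    (((d + 1) * (k + 1)).factorial * (2 ^ (m * d + k)) ^ s *
      (y ^ (m * d) * 2 ^ (m * d + k) * y ^ ((K + 1) * (k + H))) ^ t) ^ κ <
      y ^ (((m - 1) * K - 1) * t) := by
  have hLD : (d + 1) * (k + 1) = L + 1 := by
    have h1 : 0 < (d + 1) * (k + 1) := by positivity
    omega
  rw [hLD] at hst ⊢
  have ht : 1 ≤ t := by omega
  have hy0 : 0 < y := lt_of_lt_of_le (by positivity) hy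
  obtain ⟨Q, hQ⟩ : ∃ Q, Q = κ * (m * d + (K + 1) * (k + H)) := ⟨_, rfl⟩
  obtain ⟨N, hN⟩ : ∃ N, N = (m - 1) * K - 1 := ⟨_, rfl⟩
  rw [← hQ, ← hN] at hnum
  rw [← hN]
  have hκ3 : 0 < 300 * κ ^ 3 := by positivity
  have hQN : Q < N := by
    have h1 : 300 * κ ^ 3 * Q < 300 * κ ^ 3 * N := by omega
    exact Nat.lt_of_mul_lt_mul_left h1
  obtain ⟨E, rfl⟩ := Nat.exists_eq_add_of_lt hQN
  have hfac : (L + 1).factorial ≤ 2 ^ (m * (L + 1)) := by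
    calc (L + 1).factorial ≤ (L + 1) ^ (L + 1) := Nat.factorial_le_pow _
      _ ≤ (2 ^ m) ^ (L + 1) := Nat.pow_le_pow_left hL2 _
      _ = 2 ^ (m * (L + 1)) := by rw [← pow_mul]
  have h1 : (L + 1).factorial * (2 ^ (m * d + k)) ^ s *
      (y ^ (m * d) * 2 ^ (m * d + k) * y ^ ((K + 1) * (k + H))) ^ t ≤
      2 ^ ((L + 1) * (m * (d + 1) + k)) * y ^ ((m * d + (K + 1) * (k + H)) * t) := by
    calc (L + 1).factorial * (2 ^ (m * d + k)) ^ s *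
          (y ^ (m * d) * 2 ^ (m * d + k) * y ^ ((K + 1) * (k + H))) ^ t
        ≤ 2 ^ (m * (L + 1)) * (2 ^ (m * d + k)) ^ s *
          (y ^ (m * d) * 2 ^ (m * d + k) * y ^ ((K + 1) * (k + H))) ^ t :=
          Nat.mul_le_mul_right _ (Nat.mul_le_mul_right _ hfac)
      _ = 2 ^ (m * (L + 1) + (m * d + k) * (s + t)) * y ^ ((m * d + (K + 1) * (k + H)) * t) := by
          ring
      _ = 2 ^ ((L + 1) * (m * (d + 1) + k)) * y ^ ((m * d + (K + 1) * (k + H)) * t) := by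
          rw [hst]
          congr 2
          ring
  have h2 : κ * ((L + 1) * (m * (d + 1) + k)) < 300 * κ ^ 3 * (E + 1) := by
    have h3 : κ * ((L + 1) * (m * (d + 1) + k)) = κ * (L + 1) * (m * (d + 1) + k) := by ring
    have h4 : 300 * κ ^ 3 * (Q + E + 1) = 300 * κ ^ 3 * Q + 300 * κ ^ 3 * (E + 1) := by ring
    rw [h3]
    omega
  calc _ ≤ (2 ^ ((L + 1) * (m * (d + 1) + k)) * y ^ ((m * d + (K + 1) * (k + H)) * t)) ^ κ :=
        Nat.pow_le_pow_left h1 _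
    _ = 2 ^ (κ * ((L + 1) * (m * (d + 1) + k))) * y ^ (Q * t) := by
        rw [mul_pow, ← pow_mul, ← pow_mul, hQ]
        congr 2
        · ring
        · ring
    _ < 2 ^ (300 * κ ^ 3 * (E + 1)) * y ^ (Q * t) :=
        Nat.mul_lt_mul_of_pos_right (Nat.pow_lt_pow_right (by norm_num) h2) (by positivity)
    _ = (2 ^ (300 * κ ^ 3)) ^ (E + 1) * y ^ (Q * t) := by rw [← pow_mul]
    _ ≤ y ^ (E + 1) * y ^ (Q * t) := Nat.mul_le_mul_right _ (Nat.pow_le_pow_left hy _)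
    _ ≤ y ^ ((E + 1) * t) * y ^ (Q * t) := by
        refine Nat.mul_le_mul_right _ (Nat.pow_le_pow_right hy0 ?_)
        exact Nat.le_mul_of_pos_right _ ht
    _ = y ^ ((Q + E + 1) * t) := by
        rw [← pow_add]
        congr 1
        ring

end Pool.Agent.MP_88e4f4_nt.TK
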