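import Mathlib

set_option autoImplicit false

namespace Pool.Agent.MP_88e4f4_nt.TK

open Polynomial

/-- Taylor coefficients at `v = 1` of `(v - 1) ^ i * v ^ (m (d - i) + j)`. -/
noncomputable def lam (m d l i j : ℕ) : ℤ :=
  ((X : ℤ[X]) ^ i * (1 + X) ^ (m * (d - i) + j)).coeff l

/-- The (normalised) Taylor coefficients at the point `(z₀, p / q)` along the curve. -/
noncomputable def ev (m d k : ℕ) (z₀ p q : ℤ) (h i j : ℕ) : ℤ :=
  z₀ ^ i * p ^ j * q ^ (k - j) *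
    ((1 + C p * X) ^ i * (1 + C (p - q) * X) ^ (m * (d - i) + j) : ℤ[X]).coeff h

/-- ROW Z4. Vanishing of the functionals `lam` means high order of vanishing at `v = 1`.

Proof. Let `G = ∑ i, ∑ j, C (c i j) * (X ^ i * (1 + X) ^ (m (d - i) + j)) ∈ ℚ[X]`. Its coefficient of
degree `l` is `∑ i, ∑ j, c i j * lam m d l i j` (`lam` is the coefficient of the same polynomial over
`ℤ`: `Polynomial.coeff_map`). So `X ^ L ∣ G` (`X_pow_dvd_iff`). Substitute `X - C 1` for `X`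
(`Polynomial.comp`): `(X - C 1) ^ L ∣ G.comp (X - C 1)`, and `G.comp (X - C 1)` is the polynomial of the
statement (`(1 + X).comp (X - C 1) = X`, `X ^ (m (d - i) + j) = X ^ (m (d - i)) * X ^ j`). -/
theorem dvd_of_lam {m d k L : ℕ} (c : ℕ → ℕ → ℚ)
    (h : ∀ l < L, ∑ i ∈ Finset.range (d + 1), ∑ j ∈ Finset.range (k + 1),
      c i j * (lam m d l i j : ℚ) = 0) :
    (X - C 1) ^ L ∣ ∑ i ∈ Finset.range (d + 1), (X - C 1) ^ i * X ^ (m * (d - i)) *
      ∑ j ∈ Finset.range (k + 1), C (c i j) * X ^ j := by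
  obtain ⟨G, hG⟩ : ∃ G : ℚ[X], G = ∑ i ∈ Finset.range (d + 1), ∑ j ∈ Finset.range (k + 1),
    C (c i j) * (X ^ i * (1 + X) ^ (m * (d - i) + j)) := ⟨_, rfl⟩
  have hdvd : X ^ L ∣ G := by
    rw [Polynomial.X_pow_dvd_iff]
    intro l hl
    rw [hG, ← h l hl]
    simp only [Polynomial.finsetSum_coeff, Polynomial.coeff_C_mul]
    refine Finset.sum_congr rfl fun i _ => Finset.sum_congr rfl fun j _ => ?_
    congr 1
    have e : ((X : ℚ[X]) ^ i * (1 + X) ^ (m * (d - i) + j)) =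
        ((X : ℤ[X]) ^ i * (1 + X) ^ (m * (d - i) + j)).map (Int.castRingHom ℚ) := by
      simp
    rw [e, Polynomial.coeff_map]
    rfl
  obtain ⟨Q, hQ⟩ := hdvd
  have hcomp : G.comp (X - C 1) = ∑ i ∈ Finset.range (d + 1), (X - C 1) ^ i * X ^ (m * (d - i)) *
      ∑ j ∈ Finset.range (k + 1), C (c i j) * X ^ j := by
    rw [hG, Polynomial.sum_comp]
    refine Finset.sum_congr rfl fun i _ => ?_
    rw [Polynomial.sum_comp, Finset.mul_sum]
    refine Finset.sum_congr rfl fun j _ => ?_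
    simp only [Polynomial.mul_comp, Polynomial.C_comp, Polynomial.pow_comp, Polynomial.X_comp,
      Polynomial.add_comp, Polynomial.one_comp]
    rw [pow_add]
    have e : (1 : ℚ[X]) + (X - C 1) = X := by rw [map_one]; ring
    rw [e]; ring
  rw [← hcomp, hQ]
  simp only [Polynomial.mul_comp, Polynomial.pow_comp, Polynomial.X_comp]
  exact dvd_mul_right _ _

/-- ROW Z4 (second part). Vanishing of the functionals `ev` means high order of vanishing at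
`v = u = p / q` of the twisted polynomial.

Proof. Let `u = p / q`, `c₀ = z₀ u ^ m / (u - 1)` (`u ≠ 0, 1`). Let
`G = ∑ i, ∑ j, C (c i j * z₀ ^ i * p ^ j * q ^ (k - j)) * ((1 + C p * X) ^ i * (1 + C (p - q) * X) ^ M)`
over `ℚ`, `M = m (d - i) + j`. Its coefficients of degree `< H` vanish, so `X ^ H ∣ G`. Substitute
`s = C (1 / (u (p - q))) * (X - C u)` for `X`: `(X - C u) ^ H` divides `G.comp s` up to a nonzero
constant. With `s`: `1 + (p - q) s = X / u`, and `1 + p s = (X - 1) / (u - 1)` because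
`(u - 1)(1 + p s) = (p - q)(1 + p s) / q = (p - q)/q + (p / q) (p - q) s = u (1 + (p - q) s) - 1`. So
`G.comp s = ∑ c i j z₀ ^ i p ^ j q ^ (k - j) (X - 1) ^ i / (u - 1) ^ i * X ^ M / u ^ M`
and `p ^ j q ^ (k - j) / u ^ M = q ^ k u ^ (m i) / u ^ (m d)` (`p ^ j q ^ (k - j) = q ^ k u ^ j`, `i ≤ d`), so
`G.comp s = q ^ k / u ^ (m d) * ∑ i, c₀ ^ i (X - 1) ^ i X ^ (m (d - i)) ∑ j, c i j X ^ j`. -/
theorem dvd_of_ev {m d k H : ℕ} (z₀ p q : ℤ) (hp : p ≠ 0) (hq : q ≠ 0) (hpq : p ≠ q)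
    (c : ℕ → ℕ → ℚ)
    (h : ∀ h' < H, ∑ i ∈ Finset.range (d + 1), ∑ j ∈ Finset.range (k + 1),
      c i j * (ev m d k z₀ p q h' i j : ℚ) = 0) :
    (X - C ((p : ℚ) / q)) ^ H ∣ ∑ i ∈ Finset.range (d + 1),
      C (((z₀ : ℚ) * ((p : ℚ) / q) ^ m / ((p : ℚ) / q - 1)) ^ i) *
        ((X - C 1) ^ i * X ^ (m * (d - i)) * ∑ j ∈ Finset.range (k + 1), C (c i j) * X ^ j) := by
  have hpQ : (p : ℚ) ≠ 0 := by exact_mod_cast hp
  have hqQ : (q : ℚ) ≠ 0 := by exact_mod_cast hq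
  have hpqQ : (p : ℚ) - q ≠ 0 := by
    intro h0
    exact hpq (by exact_mod_cast sub_eq_zero.1 h0)
  obtain ⟨u, hu⟩ : ∃ u : ℚ, u = (p : ℚ) / q := ⟨_, rfl⟩
  have hu0 : u ≠ 0 := by rw [hu]; positivity
  have hu1 : u - 1 ≠ 0 := by
    rw [hu]
    intro h0
    apply hpqQ
    field_simp at h0
    linarith
  rw [← hu]
  obtain ⟨G, hG⟩ : ∃ G : ℚ[X], G = ∑ i ∈ Finset.range (d + 1), ∑ j ∈ Finset.range (k + 1),
    C (c i j) * (C ((z₀ : ℚ) ^ i * (p : ℚ) ^ j * (q : ℚ) ^ (k - j)) *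
      ((1 + C (p : ℚ) * X) ^ i * (1 + C ((p : ℚ) - q) * X) ^ (m * (d - i) + j))) := ⟨_, rfl⟩
  have hdvd : X ^ H ∣ G := by
    rw [Polynomial.X_pow_dvd_iff]
    intro l hl
    rw [hG, ← h l hl]
    simp only [Polynomial.finsetSum_coeff, Polynomial.coeff_C_mul]
    refine Finset.sum_congr rfl fun i _ => Finset.sum_congr rfl fun j _ => ?_
    congr 1
    have e : ((1 + C (p : ℚ) * X) ^ i * (1 + C ((p : ℚ) - q) * X) ^ (m * (d - i) + j) : ℚ[X]) =
        ((1 + C p * X) ^ i * (1 + C (p - q) * X) ^ (m * (d - i) + j) : ℤ[X]).map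
          (Int.castRingHom ℚ) := by
      simp
    rw [e, Polynomial.coeff_map]
    simp only [ev]
    push_cast
    rfl
  obtain ⟨Q, hQ⟩ := hdvd
  obtain ⟨s, hs⟩ : ∃ s : ℚ[X], s = C (1 / (u * ((p : ℚ) - q))) * (X - C u) := ⟨_, rfl⟩
  have hs1 : (1 : ℚ[X]) + C (p : ℚ) * s = C (1 / (u - 1)) * (X - C 1) := by
    have e1 : (p : ℚ) * (1 / (u * ((p : ℚ) - q))) = 1 / (u - 1) := by
      rw [hu]; field_simp
    have e2 : C (1 / (u - 1)) * C (u - 1) = (1 : ℚ[X]) := by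
      rw [← C_mul, one_div_mul_cancel hu1, C_1]
    calc (1 : ℚ[X]) + C (p : ℚ) * s
        = C (1 / (u - 1)) * C (u - 1) + C (1 / (u - 1)) * (X - C u) := by
          rw [e2, hs, ← mul_assoc, ← C_mul, e1]
      _ = C (1 / (u - 1)) * (X - C 1) := by rw [C_sub]; ring
  have hs2 : (1 : ℚ[X]) + C ((p : ℚ) - q) * s = C (1 / u) * X := by
    have e1 : ((p : ℚ) - q) * (1 / (u * ((p : ℚ) - q))) = 1 / u := by field_simp
    have e2 : C (1 / u) * C u = (1 : ℚ[X]) := by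
      rw [← C_mul, one_div_mul_cancel hu0, C_1]
    calc (1 : ℚ[X]) + C ((p : ℚ) - q) * s
        = C (1 / u) * C u + C (1 / u) * (X - C u) := by
          rw [e2, hs, ← mul_assoc, ← C_mul, e1]
      _ = C (1 / u) * X := by ring
  have hcomp : G.comp s = C ((q : ℚ) ^ k / u ^ (m * d)) * ∑ i ∈ Finset.range (d + 1),
      C (((z₀ : ℚ) * u ^ m / (u - 1)) ^ i) *
        ((X - C 1) ^ i * X ^ (m * (d - i)) * ∑ j ∈ Finset.range (k + 1), C (c i j) * X ^ j) := by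
    rw [hG, Polynomial.sum_comp, Finset.mul_sum]
    refine Finset.sum_congr rfl fun i hi => ?_
    rw [Polynomial.sum_comp, Finset.mul_sum, Finset.mul_sum, Finset.mul_sum]
    refine Finset.sum_congr rfl fun j hj => ?_
    simp only [Polynomial.mul_comp, Polynomial.C_comp, Polynomial.pow_comp, Polynomial.X_comp,
      Polynomial.add_comp, Polynomial.one_comp]
    rw [hs1, hs2, mul_pow, mul_pow, ← C_pow, ← C_pow]
    have hi' : i ≤ d := by have := Finset.mem_range.1 hi; omega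
    have hj' : j ≤ k := by have := Finset.mem_range.1 hj; omega
    have hpu : (p : ℚ) = u * q := by rw [hu]; field_simp
    have key : (z₀ : ℚ) ^ i * (p : ℚ) ^ j * (q : ℚ) ^ (k - j) * (1 / (u - 1)) ^ i *
        (1 / u) ^ (m * (d - i) + j) =
        (q : ℚ) ^ k / u ^ (m * d) * ((z₀ : ℚ) * u ^ m / (u - 1)) ^ i := by
      obtain ⟨d', rfl⟩ : ∃ d', d = i + d' := ⟨d - i, by omega⟩
      obtain ⟨k', rfl⟩ : ∃ k', k = j + k' := ⟨k - j, by omega⟩
      rw [hpu]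
      simp only [Nat.add_sub_cancel_left, mul_pow, div_pow, one_pow, pow_add, mul_add, pow_mul]
      have hum : u ^ m ≠ 0 := pow_ne_zero _ hu0
      field_simp
    have key' : C ((z₀ : ℚ) ^ i * (p : ℚ) ^ j * (q : ℚ) ^ (k - j)) * C ((1 / (u - 1)) ^ i) *
        C ((1 / u) ^ (m * (d - i) + j)) =
        C ((q : ℚ) ^ k / u ^ (m * d)) * C (((z₀ : ℚ) * u ^ m / (u - 1)) ^ i) := by
      rw [← C_mul, ← C_mul, ← C_mul, key]
    calc C (c i j) * (C ((z₀ : ℚ) ^ i * (p : ℚ) ^ j * (q : ℚ) ^ (k - j)) *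
          (C ((1 / (u - 1)) ^ i) * (X - C 1) ^ i *
            (C ((1 / u) ^ (m * (d - i) + j)) * X ^ (m * (d - i) + j))))
        = (C ((z₀ : ℚ) ^ i * (p : ℚ) ^ j * (q : ℚ) ^ (k - j)) * C ((1 / (u - 1)) ^ i) *
            C ((1 / u) ^ (m * (d - i) + j))) *
            (C (c i j) * (X - C 1) ^ i * X ^ (m * (d - i) + j)) := by ring
      _ = _ := by rw [key', pow_add]; ring
  have hdv : (X - C u) ^ H ∣ G.comp s := by
    rw [hQ]
    simp only [Polynomial.mul_comp, Polynomial.pow_comp, Polynomial.X_comp]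
    rw [hs, mul_pow]
    exact Dvd.dvd.mul_right (dvd_mul_left _ _) _
  rw [hcomp] at hdv
  have hconst : (q : ℚ) ^ k / u ^ (m * d) ≠ 0 := div_ne_zero (pow_ne_zero _ hqQ) (pow_ne_zero _ hu0)
  have hunit : IsUnit (C ((q : ℚ) ^ k / u ^ (m * d)) : ℚ[X]) :=
    Polynomial.isUnit_C.2 (isUnit_iff_ne_zero.2 hconst)
  exact (hunit.dvd_mul_left).1 hdv

end Pool.Agent.MP_88e4f4_nt.TK
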