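import Pool.Agent.MP_88e4f4_nt.TK.Z3
import Pool.Agent.MP_88e4f4_nt.TK.Z4

set_option autoImplicit false

namespace Pool.Agent.MP_88e4f4_nt.TK

open Polynomial

/-- ROW Z5. The functionals `lam` (`l < L`) and `ev` (`h < H`) separate the coefficient vectors.

Proof. Suppose `c i₀ j₀ ≠ 0`. Let `B i = ∑ j < k + 1, C (c i j) X ^ j`, of degree `≤ k`; `B i₀ ≠ 0`.
Apply `curve_est` over `ℚ` with `u = p / q` (`≠ 0, 1`), `c = z₀ u ^ m / (u - 1) ≠ 0`, and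
`dvd_of_lam`, `dvd_of_ev`: `2 (L + H) ≤ 2 (d + 1) k + d (d + 3)`, a contradiction. -/
theorem curve_kernel {m d k L H : ℕ} (hk : k + 2 ≤ m) (z₀ p q : ℤ) (hz : z₀ ≠ 0) (hp : p ≠ 0)
    (hq : q ≠ 0) (hpq : p ≠ q) (hLH : 2 * (d + 1) * k + d * (d + 3) < 2 * (L + H))
    (c : ℕ → ℕ → ℚ)
    (h1 : ∀ l < L, ∑ i ∈ Finset.range (d + 1), ∑ j ∈ Finset.range (k + 1),
      c i j * (lam m d l i j : ℚ) = 0)
    (h2 : ∀ h < H, ∑ i ∈ Finset.range (d + 1), ∑ j ∈ Finset.range (k + 1),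
      c i j * (ev m d k z₀ p q h i j : ℚ) = 0) :
    ∀ i < d + 1, ∀ j < k + 1, c i j = 0 := by
  intro i₀ hi₀ j₀ hj₀
  by_contra hne
  have hp' : (p : ℚ) ≠ 0 := by exact_mod_cast hp
  have hq' : (q : ℚ) ≠ 0 := by exact_mod_cast hq
  have hz' : (z₀ : ℚ) ≠ 0 := by exact_mod_cast hz
  have hpq' : (p : ℚ) ≠ q := by exact_mod_cast hpq
  have hu0 : (p : ℚ) / q ≠ 0 := div_ne_zero hp' hq'
  have hu1 : (p : ℚ) / q ≠ 1 := by
    intro h
    exact hpq' ((div_eq_one_iff_eq hq').1 h)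
  have hc : (z₀ : ℚ) * ((p : ℚ) / q) ^ m / ((p : ℚ) / q - 1) ≠ 0 :=
    div_ne_zero (mul_ne_zero hz' (pow_ne_zero _ hu0)) (sub_ne_zero.2 hu1)
  have hcoef : (∑ j ∈ Finset.range (k + 1), C (c i₀ j) * X ^ j : ℚ[X]).coeff j₀ = c i₀ j₀ := by
    rw [finsetSum_coeff, Finset.sum_eq_single j₀]
    · rw [coeff_C_mul, coeff_X_pow_self, mul_one]
    · intro j _ hj
      rw [coeff_C_mul, coeff_X_pow, if_neg (Ne.symm hj), mul_zero]
    · intro h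
      exact absurd (Finset.mem_range.2 hj₀) h
  have key := curve_est (F := ℚ) (m := m) (d := d) (k := k) (L := L) (H := H) hk
    ((p : ℚ) / q) ((z₀ : ℚ) * ((p : ℚ) / q) ^ m / ((p : ℚ) / q - 1)) hu0 hu1 hc
    (fun i => ∑ j ∈ Finset.range (k + 1), C (c i j) * X ^ j)
    (fun i _ => ?_) ⟨i₀, by omega, ?_⟩ (dvd_of_lam c h1) (dvd_of_ev z₀ p q hp hq hpq c h2)
  · omega
  · refine natDegree_sum_le_of_forall_le _ _ fun j hj => ?_
    rw [Finset.mem_range] at hj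
    exact (natDegree_C_mul_X_pow_le _ _).trans (by omega)
  · intro h0
    have h0' : (∑ j ∈ Finset.range (k + 1), C (c i₀ j) * X ^ j : ℚ[X]) = 0 := h0
    rw [h0', coeff_zero] at hcoef
    exact hne hcoef.symm

end Pool.Agent.MP_88e4f4_nt.TK
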