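import Pool.Agent.MP_88e4f4_nt.TK.Z4

set_option autoImplicit false

namespace Pool.Agent.MP_88e4f4_nt.TK

open Polynomial

/-- ROW Z6. Homogeneous evaluation of `X ^ i (1 + X) ^ M`.

Proof. `lam m d l i j = (M.choose (l - i))` for `l ≥ i` and `0` otherwise, `M = m (d - i) + j`
(`coeff_X_pow_mul'`, `coeff_one_add_X_pow`). Write `N = i + M + e`. The sum is
`∑ t ≤ M, M.choose t * α ^ (i + t) β ^ (N - i - t) = α ^ i β ^ e (α + β) ^ M` (`add_pow`); the terms with
`l < i` or `l > i + M` vanish. -/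
theorem lam_sum {A : Type*} [CommRing A] (m d i j N : ℕ) (hN : i + (m * (d - i) + j) ≤ N) (α β : A) :
    ∑ l ∈ Finset.range (N + 1), (lam m d l i j : A) * α ^ l * β ^ (N - l) =
      α ^ i * (α + β) ^ (m * (d - i) + j) * β ^ (N - i - (m * (d - i) + j)) := by
  obtain ⟨e, rfl⟩ := Nat.exists_eq_add_of_le hN
  generalize hM : m * (d - i) + j = M
  have hlam : ∀ l, lam m d l i j = if i ≤ l then ((M.choose (l - i) : ℕ) : ℤ) else 0 := by
    intro l
    unfold lam
    rw [hM, coeff_X_pow_mul', coeff_one_add_X_pow]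
  have e1 : i + M + e + 1 = i + ((M + 1) + e) := by ring
  rw [e1, Finset.sum_range_add, Finset.sum_range_add]
  have h1 : ∑ l ∈ Finset.range i, (lam m d l i j : A) * α ^ l * β ^ (i + M + e - l) = 0 := by
    apply Finset.sum_eq_zero
    intro l hl
    rw [hlam, if_neg (by have := Finset.mem_range.1 hl; omega)]
    simp
  have h2 : ∑ l ∈ Finset.range e, (lam m d (i + (M + 1 + l)) i j : A) *
      α ^ (i + (M + 1 + l)) * β ^ (i + M + e - (i + (M + 1 + l))) = 0 := by
    apply Finset.sum_eq_zero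
    intro l hl
    rw [hlam, if_pos (by omega), Nat.choose_eq_zero_of_lt (by omega)]
    simp
  rw [h1, h2, zero_add, add_zero, add_pow, Finset.mul_sum, Finset.sum_mul]
  refine Finset.sum_congr rfl fun t ht => ?_
  have ht' : t ≤ M := Nat.lt_succ_iff.1 (Finset.mem_range.1 ht)
  obtain ⟨u, rfl⟩ := Nat.exists_eq_add_of_le ht'
  rw [hlam, if_pos (by omega)]
  have e2 : i + t - i = t := by omega
  have e3 : i + (t + u) + e - (i + t) = u + e := by omega
  have e4 : t + u - t = u := by omega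
  have e5 : i + (t + u) + e - i - (t + u) = e := by omega
  rw [e2, e3, e4, e5]
  push_cast
  ring

theorem z6_coeff (p : ℤ) (l h : ℕ) : ((1 + C p * X) ^ l : ℤ[X]).coeff h = (l.choose h : ℤ) * p ^ h := by
  have h1 : ((1 + C p * X) ^ l : ℤ[X]) = ((1 + X) ^ l : ℤ[X]).comp (C p * X) := by
    rw [pow_comp, add_comp, one_comp, X_comp]
  rw [h1, comp_C_mul_X_coeff, coeff_one_add_X_pow]

/-- ROW Z6 (second part). The identity behind the congruence.

Proof. Use `lam_sum` in `A = ℤ[X]` with `α = C (p - q) * (1 + C p * X)`, `β = C q`,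
`N = m d + k + L`: note `α + β = C p * (1 + C (p - q) * X)`
(`(p - q)(1 + p X) + q = p + (p - q) p X`). So, with `M = m (d - i) + j`,
`∑ l ≤ N, lam l (p - q) ^ l q ^ (N - l) (1 + p X) ^ l
 = (p - q) ^ i (1 + p X) ^ i p ^ M (1 + (p - q) X) ^ M q ^ (N - i - M)`. Compare the coefficients of
degree `h`; that of `(1 + C p * X) ^ l` is `(l.choose h) p ^ h`. Exponents (`1 ≤ m`, `i ≤ d`, `j ≤ k`):
`N - i - M = (m - 1) i + L + (k - j)`, `p ^ M = p ^ (m (d - i)) p ^ j`. -/
theorem ev_identity {m d k L h i j : ℕ} (hm : 1 ≤ m) (hi : i ≤ d) (hj : j ≤ k) (p q : ℤ) :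
    (p - q) ^ i * q ^ ((m - 1) * i) * p ^ (m * (d - i)) * q ^ L * (p ^ j * q ^ (k - j) *
      ((1 + C p * X) ^ i * (1 + C (p - q) * X) ^ (m * (d - i) + j) : ℤ[X]).coeff h) =
    ∑ l ∈ Finset.range (m * d + k + L + 1),
      ((l.choose h : ℤ) * p ^ h * (p - q) ^ l * q ^ (m * d + k + L - l)) * lam m d l i j := by
  obtain ⟨e, rfl⟩ := Nat.exists_eq_add_of_le hi
  obtain ⟨f, rfl⟩ := Nat.exists_eq_add_of_le hj
  obtain ⟨m', rfl⟩ := Nat.exists_eq_add_of_le hm
  have e0 : i + e - i = e := by omega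
  have e1 : j + f - j = f := by omega
  have e2 : 1 + m' - 1 = m' := by omega
  have hN : i + ((1 + m') * (i + e - i) + j) ≤ (1 + m') * (i + e) + (j + f) + L := by
    rw [e0]
    nlinarith [Nat.zero_le (m' * i)]
  have h1 := lam_sum (A := ℤ[X]) (1 + m') (i + e) i j ((1 + m') * (i + e) + (j + f) + L) hN
    (C (p - q) * (1 + C p * X)) (C q)
  have h2 := congrArg (fun P : ℤ[X] => P.coeff h) h1
  simp only [finsetSum_coeff] at h2
  rw [e0, e1, e2]
  rw [e0] at h2
  have e3 : (1 + m') * (i + e) + (j + f) + L - i - ((1 + m') * e + j) = m' * i + L + f := by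
    have : (1 + m') * (i + e) + (j + f) + L = i + ((1 + m') * e + j) + (m' * i + L + f) := by ring
    omega
  have h3 : (C (p - q) * (1 + C p * X) : ℤ[X]) + C q = C p * (1 + C (p - q) * X) := by
    rw [C_sub]
    ring
  have h4 : (C (p - q) * (1 + C p * X) : ℤ[X]) ^ i *
      (C (p - q) * (1 + C p * X) + C q) ^ ((1 + m') * e + j) *
      (C q) ^ ((1 + m') * (i + e) + (j + f) + L - i - ((1 + m') * e + j)) =
      C ((p - q) ^ i * p ^ ((1 + m') * e + j) * q ^ (m' * i + L + f)) *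
        ((1 + C p * X) ^ i * (1 + C (p - q) * X) ^ ((1 + m') * e + j)) := by
    rw [h3, e3, mul_pow, mul_pow]
    simp only [C_mul, C_pow]
    generalize (1 + C p * X : ℤ[X]) = P
    generalize (1 + C (p - q) * X : ℤ[X]) = Q
    ring
  rw [h4, coeff_C_mul] at h2
  have h5 : ∀ l, ((lam (1 + m') (i + e) l i j : ℤ[X]) * (C (p - q) * (1 + C p * X)) ^ l *
      (C q) ^ ((1 + m') * (i + e) + (j + f) + L - l)).coeff h =
      ((l.choose h : ℤ) * p ^ h * (p - q) ^ l * q ^ ((1 + m') * (i + e) + (j + f) + L - l)) *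
        lam (1 + m') (i + e) l i j := by
    intro l
    have h6 : ((lam (1 + m') (i + e) l i j : ℤ[X]) * (C (p - q) * (1 + C p * X)) ^ l *
      (C q) ^ ((1 + m') * (i + e) + (j + f) + L - l)) =
      C (lam (1 + m') (i + e) l i j * (p - q) ^ l *
        q ^ ((1 + m') * (i + e) + (j + f) + L - l)) * (1 + C p * X) ^ l := by
      rw [← C_eq_intCast, mul_pow]
      simp only [C_mul, C_pow]
      generalize (1 + C p * X : ℤ[X]) = P
      simp only [Int.cast_id]
      ring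
    rw [h6, coeff_C_mul, z6_coeff]
    ring
  rw [Finset.sum_congr rfl (fun l _ => h5 l)] at h2
  rw [h2, pow_add p, pow_add q, pow_add q]
  ring

/-- ROW Z6 (third part). The congruence.

Proof. `p ^ (m d) q ^ L ev = z₀ ^ i p ^ (m i) * p ^ (m (d - i)) q ^ L W` with
`W = p ^ j q ^ (k - j) coeff_h`. As `z₀ p ^ m ≡ (p - q) q ^ (m - 1)` modulo `g ^ w`
(hence also the `i`-th powers), this is congruent to the left side of `ev_identity`; in the sum on the
right side the terms with `l ≥ L` are divisible by `(p - q) ^ L`, hence by `g ^ w`. -/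
theorem congr_ev {m d k L w h i j : ℕ} (hm : 1 ≤ m) (hi : i ≤ d) (hj : j ≤ k) (g z₀ p q : ℤ)
    (h1 : g ^ w ∣ z₀ * p ^ m - (p - q) * q ^ (m - 1)) (h2 : g ^ w ∣ (p - q) ^ L) :
    ∃ r : ℤ, p ^ (m * d) * q ^ L * ev m d k z₀ p q h i j =
      ∑ l ∈ Finset.range L, ((l.choose h : ℤ) * p ^ h * (p - q) ^ l * q ^ (m * d + k + L - l)) *
        lam m d l i j + g ^ w * r := by
  have h3 := ev_identity (L := L) (h := h) hm hi hj p q
  have h4 : g ^ w ∣ (z₀ * p ^ m) ^ i - ((p - q) * q ^ (m - 1)) ^ i :=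
    h1.trans (sub_dvd_pow_sub_pow _ _ i)
  obtain ⟨s, hs⟩ := h4
  have e1 : m * d + k + L + 1 = L + (m * d + k + 1) := by ring
  rw [e1, Finset.sum_range_add] at h3
  have h5 : g ^ w ∣ ∑ x ∈ Finset.range (m * d + k + 1),
      (((L + x).choose h : ℤ) * p ^ h * (p - q) ^ (L + x) * q ^ (m * d + k + L - (L + x))) *
        lam m d (L + x) i j := by
    apply Finset.dvd_sum
    intro x _
    apply Dvd.dvd.mul_right
    apply Dvd.dvd.mul_right
    apply Dvd.dvd.mul_left
    rw [pow_add]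
    exact Dvd.dvd.mul_right h2 _
  obtain ⟨t, ht⟩ := h5
  rw [ht] at h3
  refine ⟨t + s * (p ^ (m * (d - i)) * q ^ L * (p ^ j * q ^ (k - j) *
      ((1 + C p * X) ^ i * (1 + C (p - q) * X) ^ (m * (d - i) + j) : ℤ[X]).coeff h)), ?_⟩
  have e2 : p ^ (m * d) = (p ^ m) ^ i * p ^ (m * (d - i)) := by
    rw [← pow_mul, ← pow_add, ← Nat.mul_add, Nat.add_sub_cancel' hi]
  have e3 : (z₀ * p ^ m) ^ i = (p - q) ^ i * q ^ ((m - 1) * i) + g ^ w * s := by
    rw [pow_mul, ← mul_pow, ← hs]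
    ring
  have e4 : p ^ (m * d) * q ^ L * ev m d k z₀ p q h i j = (z₀ * p ^ m) ^ i *
      (p ^ (m * (d - i)) * q ^ L * (p ^ j * q ^ (k - j) *
      ((1 + C p * X) ^ i * (1 + C (p - q) * X) ^ (m * (d - i) + j) : ℤ[X]).coeff h)) := by
    unfold ev
    rw [e2, mul_pow]
    ring
  rw [e4, e3]
  linear_combination h3

end Pool.Agent.MP_88e4f4_nt.TK
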