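import Pool.Agent.MP_88e4f4_nt.TK.Z4

set_option autoImplicit false

namespace Pool.Agent.MP_88e4f4_nt.TK

open Polynomial

theorem z7_step {P : ℤ[X]} {N : ℕ} {p a : ℤ} (hp : 0 ≤ p) (ha : 0 ≤ a) (hap : a ≤ p)
    (hP : ∀ h, 0 ≤ P.coeff h ∧ P.coeff h ≤ N.choose h * p ^ h) :
    ∀ h, 0 ≤ (P * (1 + C a * X)).coeff h ∧
      (P * (1 + C a * X)).coeff h ≤ (N + 1).choose h * p ^ h := by
  have e : P * (1 + C a * X) = P + C a * (P * X) := by ring
  intro h
  rw [e, coeff_add, coeff_C_mul]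
  cases h with
  | zero =>
    rw [mul_coeff_zero, coeff_X_zero, mul_zero, mul_zero, add_zero, pow_zero, mul_one,
      Nat.choose_zero_right]
    have h1 := hP 0
    rw [pow_zero, mul_one, Nat.choose_zero_right] at h1
    exact h1
  | succ h =>
    rw [coeff_mul_X]
    have h1 := hP (h + 1)
    have h2 := hP h
    refine ⟨add_nonneg h1.1 (mul_nonneg ha h2.1), ?_⟩
    have h3 : a * P.coeff h ≤ p * (N.choose h * p ^ h) := mul_le_mul hap h2.2 h2.1 hp
    have h4 : (((N + 1).choose (h + 1) : ℕ) : ℤ) = (N.choose h : ℤ) + (N.choose (h + 1) : ℤ) := by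
      rw [Nat.choose_succ_succ]
      push_cast
      rfl
    rw [h4]
    calc P.coeff (h + 1) + a * P.coeff h
        ≤ N.choose (h + 1) * p ^ (h + 1) + p * (N.choose h * p ^ h) := add_le_add h1.2 h3
      _ = ((N.choose h : ℤ) + (N.choose (h + 1) : ℤ)) * p ^ (h + 1) := by ring

theorem z7_pow {p a : ℤ} (hp : 0 ≤ p) (ha : 0 ≤ a) (hap : a ≤ p) {P : ℤ[X]} {N : ℕ}
    (hP : ∀ h, 0 ≤ P.coeff h ∧ P.coeff h ≤ N.choose h * p ^ h) (M : ℕ) :
    ∀ h, 0 ≤ (P * (1 + C a * X) ^ M).coeff h ∧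
      (P * (1 + C a * X) ^ M).coeff h ≤ (N + M).choose h * p ^ h := by
  induction M with
  | zero =>
    rw [pow_zero, mul_one, Nat.add_zero]
    exact hP
  | succ M ih =>
    have e : P * (1 + C a * X) ^ (M + 1) = (P * (1 + C a * X) ^ M) * (1 + C a * X) := by
      rw [pow_succ, mul_assoc]
    rw [e]
    exact z7_step hp ha hap ih

theorem z7_one {p : ℤ} (h : ℕ) : 0 ≤ (1 : ℤ[X]).coeff h ∧
    (1 : ℤ[X]).coeff h ≤ ((0 : ℕ).choose h : ℤ) * p ^ h := by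
  cases h with
  | zero =>
    rw [coeff_one_zero, Nat.choose_zero_right, pow_zero]
    norm_num
  | succ h =>
    rw [coeff_one, if_neg (Nat.succ_ne_zero h), Nat.choose_zero_succ]
    norm_num

theorem z7_all {p a : ℤ} (hp : 0 ≤ p) (ha : 0 ≤ a) (hap : a ≤ p) (i M h : ℕ) :
    0 ≤ ((1 + C p * X) ^ i * (1 + C a * X) ^ M : ℤ[X]).coeff h ∧
      ((1 + C p * X) ^ i * (1 + C a * X) ^ M : ℤ[X]).coeff h ≤ (i + M).choose h * p ^ h := by
  have h1 : ∀ h, 0 ≤ ((1 + C p * X) ^ i : ℤ[X]).coeff h ∧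
      ((1 + C p * X) ^ i : ℤ[X]).coeff h ≤ i.choose h * p ^ h := by
    have h2 := z7_pow hp hp le_rfl (fun h => z7_one (p := p) h) i
    rw [one_mul, Nat.zero_add] at h2
    exact h2
  exact z7_pow hp ha hap h1 M h

/-- ROW Z7. Size of `lam`.

Proof. `lam m d l i j` is `(m (d - i) + j).choose (l - i)` or `0` (`coeff_X_pow_mul'`,
`coeff_one_add_X_pow`), at most `2 ^ (m (d - i) + j) ≤ 2 ^ (m d + k)` (`Nat.choose_le_two_pow`). -/
theorem lam_le {m d k l i j : ℕ} (hj : j ≤ k) : |lam m d l i j| ≤ 2 ^ (m * d + k) := by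
  have h2 : (2 : ℤ) ^ (m * (d - i) + j) ≤ 2 ^ (m * d + k) := by
    refine pow_le_pow_right₀ (by norm_num) ?_
    have : m * (d - i) ≤ m * d := Nat.mul_le_mul_left m (Nat.sub_le d i)
    omega
  unfold lam
  rw [coeff_X_pow_mul']
  split_ifs with h
  · rw [coeff_one_add_X_pow, abs_of_nonneg (Int.natCast_nonneg _)]
    have h1 : (((m * (d - i) + j).choose (l - i) : ℕ) : ℤ) ≤ ((2 ^ (m * (d - i) + j) : ℕ) : ℤ) := by
      exact_mod_cast Nat.choose_le_two_pow _ _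
    push_cast at h1
    exact h1.trans h2
  · rw [abs_zero]
    positivity

/-- ROW Z7 (second part). Size of `ev`.

Proof. The coefficients of `(1 + C p * X) ^ i * (1 + C (p - q) * X) ^ M` are nonnegative and at most those
of `(1 + C p * X) ^ (i + M)`, because `0 ≤ p - q ≤ p`
(coefficient of the product as a sum over the antidiagonal, `choose i a * p ^ a * choose M b * (p - q) ^ b`,
and Vandermonde `Nat.add_choose_eq`). So the coefficient of degree `h` is between `0` and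
`(i + M).choose h * p ^ h ≤ 2 ^ (m d + k) p ^ h`; here `i + m (d - i) + j ≤ m d + k` (`1 ≤ m`, `i ≤ d`).
And `|z₀ ^ i| ≤ Z ^ d`, `p ^ j q ^ (k - j) ≤ p ^ k`, `p ^ h ≤ p ^ H`. -/
theorem ev_le {m d k h i j H : ℕ} (hm : 1 ≤ m) (hi : i ≤ d) (hj : j ≤ k) (hh : h ≤ H)
    (z₀ p q Z : ℤ) (hZ : 1 ≤ Z) (hz : |z₀| ≤ Z) (hq : 1 ≤ q) (hqp : q ≤ p) :
    |ev m d k z₀ p q h i j| ≤ Z ^ d * 2 ^ (m * d + k) * p ^ (k + H) := by
  have hp : 1 ≤ p := hq.trans hqp
  have hp0 : 0 ≤ p := by omega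
  have h1 := z7_all hp0 (show (0 : ℤ) ≤ p - q by omega) (show p - q ≤ p by omega) i
    (m * (d - i) + j) h
  have h2 : |z₀ ^ i| ≤ Z ^ d := by
    rw [abs_pow]
    calc |z₀| ^ i ≤ Z ^ i := pow_le_pow_left₀ (abs_nonneg _) hz i
      _ ≤ Z ^ d := pow_le_pow_right₀ hZ hi
  have h3 : p ^ j * q ^ (k - j) ≤ p ^ k := by
    calc p ^ j * q ^ (k - j) ≤ p ^ j * p ^ (k - j) :=
          mul_le_mul_of_nonneg_left (pow_le_pow_left₀ (by omega) hqp _) (pow_nonneg hp0 _)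
      _ = p ^ k := by rw [← pow_add, Nat.add_sub_cancel' hj]
  have h4 : (((i + (m * (d - i) + j)).choose h : ℕ) : ℤ) ≤ 2 ^ (m * d + k) := by
    have h5 : (((i + (m * (d - i) + j)).choose h : ℕ) : ℤ) ≤
        ((2 ^ (i + (m * (d - i) + j)) : ℕ) : ℤ) := by
      exact_mod_cast Nat.choose_le_two_pow _ _
    push_cast at h5
    refine h5.trans (pow_le_pow_right₀ (by norm_num) ?_)
    have h6 : i ≤ m * i := Nat.le_mul_of_pos_left i hm
    have h7 : m * i + m * (d - i) = m * d := by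
      rw [← Nat.mul_add, Nat.add_sub_cancel' hi]
    omega
  have h5 : p ^ h ≤ p ^ H := pow_le_pow_right₀ hp hh
  unfold ev
  rw [mul_assoc (z₀ ^ i), abs_mul, abs_mul, abs_of_nonneg (mul_nonneg (pow_nonneg hp0 j)
    (pow_nonneg (show (0 : ℤ) ≤ q by omega) (k - j))), abs_of_nonneg h1.1]
  calc |z₀ ^ i| * (p ^ j * q ^ (k - j)) *
        ((1 + C p * X) ^ i * (1 + C (p - q) * X) ^ (m * (d - i) + j) : ℤ[X]).coeff h
      ≤ (Z ^ d * p ^ k) * (2 ^ (m * d + k) * p ^ H) := by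
        refine mul_le_mul (mul_le_mul h2 h3 (mul_nonneg (pow_nonneg hp0 j)
          (pow_nonneg (show (0 : ℤ) ≤ q by omega) (k - j))) (pow_nonneg (by omega) d)) ?_ h1.1
          (mul_nonneg (pow_nonneg (by omega) d) (pow_nonneg hp0 k))
        exact h1.2.trans (mul_le_mul h4 h5 (pow_nonneg hp0 h) (by positivity))
    _ = Z ^ d * 2 ^ (m * d + k) * p ^ (k + H) := by ring

end Pool.Agent.MP_88e4f4_nt.TK
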