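import Pool.Agent.MP_88e4f4_nt.TS.D4
import Pool.Agent.MP_88e4f4_nt.TK.Z5
import Pool.Agent.MP_88e4f4_nt.TK.Z6
import Pool.Agent.MP_88e4f4_nt.TK.Z7

set_option autoImplicit false

namespace Pool.Agent.MP_88e4f4_nt.TK

open Polynomial Pool.Agent.MP_88e4f4_nt.TS

theorem z8_sum {M : Type*} [AddCommMonoid M] (D k : ℕ) (g : ℕ → ℕ → M) :
    ∑ i ∈ Finset.range D, ∑ j ∈ Finset.range k, g i j = ∑ p : Fin D × Fin k, g p.1 p.2 := by
  rw [Fintype.sum_prod_type, Finset.sum_range]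
  refine Finset.sum_congr rfl fun i _ => ?_
  rw [Finset.sum_range]

/-- ROW Z8. The main inequality on the curve. (Compare the proof of `anchor_ineq` in `TS/M1.lean`.)

Proof. Apply `core_ineq` with `I = Fin (d + 1) × Fin (k + 1)`, `A = Fin L`, `L = Fin H`,
`u l (i, j) = lam m d l i j`, `v h (i, j) = ev m d k z₀ p q h i j`, `Y = g`, `z = p ^ (m d) q ^ L`
(coprime to `g`), `h h l = (l.choose h) p ^ h (p - q) ^ l q ^ (m d + k + L - l)`, the quotients from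
`congr_ev`, `U = 2 ^ (m d + k)` (`lam_le`), `V = Z ^ d 2 ^ (m d + k) p ^ (k + H)` (`ev_le`, `Z ≥ 1` since
`z₀ ≠ 0`). `hker`: extend `c` by zero to `ℕ × ℕ` and use `curve_kernel` (`m1_sum` of `TS/M1.lean` converts
sums over `Fin × Fin` into double sums over ranges; you may copy it). -/
theorem curve_ineq {m d k L H w : ℕ} (hk : k + 2 ≤ m) (g z₀ p q Z : ℤ) (hg : 1 ≤ g)
    (hz : z₀ ≠ 0) (hZ : |z₀| ≤ Z) (hq : 1 ≤ q) (hqp : q < p) (hcp : IsCoprime p g)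
    (hcq : IsCoprime q g) (h1 : g ^ w ∣ z₀ * p ^ m - (p - q) * q ^ (m - 1))
    (h2 : g ^ w ∣ (p - q) ^ L) (hLH : 2 * (d + 1) * k + d * (d + 3) < 2 * (L + H)) :
    ∃ s t : ℕ, s + t = (d + 1) * (k + 1) ∧ s ≤ L ∧ t ≤ H ∧
      g ^ (w * t) ≤ (((d + 1) * (k + 1)).factorial : ℤ) * (2 ^ (m * d + k)) ^ s *
        (Z ^ d * 2 ^ (m * d + k) * p ^ (k + H)) ^ t := by
  classical
  have hm : 1 ≤ m := by omega
  have hrow : ∀ (h : Fin H) (i : Fin (d + 1) × Fin (k + 1)), ∃ r : ℤ,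
      p ^ (m * d) * q ^ L * ev m d k z₀ p q h i.1 i.2 =
        ∑ l ∈ Finset.range L, ((l.choose h : ℤ) * p ^ (h : ℕ) * (p - q) ^ l *
          q ^ (m * d + k + L - l)) * lam m d l i.1 i.2 + g ^ w * r := fun h i =>
    congr_ev hm (Nat.lt_succ_iff.1 i.1.2) (Nat.lt_succ_iff.1 i.2.2) g z₀ p q h1 h2
  choose r hr using hrow
  have hZ1 : 1 ≤ Z := (Int.one_le_abs hz).trans hZ
  have hcore := core_ineq (I := Fin (d + 1) × Fin (k + 1)) (A := Fin L) (L := Fin H)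
    (fun l i => lam m d l i.1 i.2) (fun h i => ev m d k z₀ p q h i.1 i.2) ?_ g
    (p ^ (m * d) * q ^ L) hg ?_ w
    (fun h l => ((l : ℕ).choose h : ℤ) * p ^ (h : ℕ) * (p - q) ^ (l : ℕ) *
      q ^ (m * d + k + L - l)) r ?_ (2 ^ (m * d + k)) (Z ^ d * 2 ^ (m * d + k) * p ^ (k + H)) ?_ ?_
  · obtain ⟨s, t, hst, hs, ht, hfin⟩ := hcore
    rw [Fintype.card_prod, Fintype.card_fin, Fintype.card_fin] at hst hfin
    rw [Fintype.card_fin] at hs ht
    exact ⟨s, t, hst, hs, ht, hfin⟩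
  · -- the kernel
    intro c hc1 hc2
    obtain ⟨c', hc'⟩ : ∃ c' : ℕ → ℕ → ℚ, ∀ i j, c' i j =
        if h : i < d + 1 ∧ j < k + 1 then c (⟨i, h.1⟩, ⟨j, h.2⟩) else 0 := ⟨_, fun _ _ => rfl⟩
    have hcc' : ∀ i : Fin (d + 1) × Fin (k + 1), c' i.1 i.2 = c i := by
      intro i
      rw [hc', dif_pos ⟨i.1.2, i.2.2⟩]
    have hzero := curve_kernel (m := m) (d := d) (k := k) (L := L) (H := H) hk z₀ p q hz
      (by omega) (by omega) (by omega) hLH c' ?_ ?_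
    · funext i
      rw [← hcc' i]
      exact hzero _ i.1.2 _ i.2.2
    · intro l hl
      rw [z8_sum (d + 1) (k + 1) (fun i j => c' i j * (lam m d l i j : ℚ))]
      rw [← hc1 ⟨l, hl⟩]
      refine Finset.sum_congr rfl fun i _ => ?_
      rw [hcc' i]
    · intro h hh
      rw [z8_sum (d + 1) (k + 1) (fun i j => c' i j * (ev m d k z₀ p q h i j : ℚ))]
      rw [← hc2 ⟨h, hh⟩]
      refine Finset.sum_congr rfl fun i _ => ?_
      rw [hcc' i]
  · exact (hcp.pow_left).mul_left (hcq.pow_left)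
  · intro h i
    rw [hr h i, Finset.sum_range]
  · intro l i
    exact lam_le (Nat.lt_succ_iff.1 i.2.2)
  · intro h i
    exact ev_le hm (Nat.lt_succ_iff.1 i.1.2) (Nat.lt_succ_iff.1 i.2.2) h.2.le z₀ p q Z hZ1 hZ hq
      hqp.le

end Pool.Agent.MP_88e4f4_nt.TK
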