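import Pool.Agent.MP_88e4f4_nt.GBasic

set_option autoImplicit false

namespace Pool.Agent.MP_88e4f4_nt.TK

open Pool.Agent.MP_88e4f4_nt.GB

/-- ROW Z9. The curve data of a solution `x = g p`, `y = g q`.

Proof. `rel h` and `x = g p`, `y = g q`: `g ^ n q ^ n (x - 1) = (y - 1) g ^ m p ^ m + g (p - q)`. Divide by
`g` (`n, m ≥ 1`): `g ^ (n-1) q ^ n (x - 1) = (y - 1) g ^ (m-1) p ^ m + (p - q)`. Hence, with
`y ^ (m-1) = g ^ (m-1) q ^ (m-1)`,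
`(1 - y) y ^ (m-1) p ^ m - (p - q) q ^ (m-1) = - q ^ (m-1) g ^ (n-1) q ^ n (x - 1)`.
The second claim: `g ^ m ∣ x - y = g (p - q)`, cancel `g`. -/
theorem sol_curve {x y m n g p q : ℕ} (h : Sol x y m n) (hg : 1 ≤ g) (hx : x = g * p)
    (hy : y = g * q) (hgm : (g : ℤ) ^ m ∣ (x : ℤ) - y) :
    (g : ℤ) ^ (n - 1) ∣ (1 - (y : ℤ)) * (y : ℤ) ^ (m - 1) * (p : ℤ) ^ m -
        ((p : ℤ) - q) * (q : ℤ) ^ (m - 1) ∧
      (g : ℤ) ^ (m - 1) ∣ (p : ℤ) - q := by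
  have hr := rel h
  obtain ⟨hy2, hxy, hm, hn, -⟩ := h
  have hg0 : (g : ℤ) ≠ 0 := by
    have : 0 < g := hg
    exact_mod_cast this.ne'
  obtain ⟨m', rfl⟩ : ∃ m', m = m' + 1 := ⟨m - 1, by omega⟩
  obtain ⟨n', rfl⟩ : ∃ n', n = n' + 1 := ⟨n - 1, by omega⟩
  have ex : (x : ℤ) = g * p := by rw [hx]; push_cast; ring
  have ey : (y : ℤ) = g * q := by rw [hy]; push_cast; ring
  have h1 : (g : ℤ) * ((g : ℤ) ^ n' * (q : ℤ) ^ (n' + 1) * ((x : ℤ) - 1)) =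
      g * (((y : ℤ) - 1) * ((g : ℤ) ^ m' * (p : ℤ) ^ (m' + 1)) + ((p : ℤ) - q)) := by
    have h2 : (y : ℤ) ^ (n' + 1) = g * (g ^ n' * q ^ (n' + 1)) := by
      rw [ey, mul_pow]
      ring
    have h3 : (x : ℤ) ^ (m' + 1) = g * (g ^ m' * p ^ (m' + 1)) := by
      rw [ex, mul_pow]
      ring
    rw [h2, h3] at hr
    have h4 : (x : ℤ) - y = g * ((p : ℤ) - q) := by
      rw [ex, ey]
      ring
    rw [h4] at hr
    linear_combination hr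
  have h2 := mul_left_cancel₀ hg0 h1
  refine ⟨?_, ?_⟩
  · rw [Nat.add_sub_cancel, Nat.add_sub_cancel]
    refine ⟨- ((q : ℤ) ^ m' * (q : ℤ) ^ (n' + 1) * ((x : ℤ) - 1)), ?_⟩
    have h3 : (y : ℤ) ^ m' = g ^ m' * q ^ m' := by
      rw [ey, mul_pow]
    rw [h3]
    linear_combination ((q : ℤ) ^ m') * h2
  · rw [Nat.add_sub_cancel]
    have h4 : (x : ℤ) - y = g * ((p : ℤ) - q) := by
      rw [ex, ey]
      ring
    rw [h4, pow_succ'] at hgm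
    exact (mul_dvd_mul_iff_left hg0).1 hgm

end Pool.Agent.MP_88e4f4_nt.TK
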