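import Pool.Agent.MP_88e4f4_nt.TK.K6
import Pool.Agent.MP_88e4f4_nt.TK.Z8
import Pool.Agent.MP_88e4f4_nt.TK.Z9
import Pool.Agent.MP_88e4f4_nt.TK.Z10

set_option autoImplicit false

namespace Pool.Agent.MP_88e4f4_nt.TK

open Pool.Agent.MP_88e4f4_nt.GB

/-- A lower bound for the larger base. -/
theorem log_lower {κ x y m n K : ℕ} (h : Sol x y m n) (hgk : y ≤ (Nat.gcd x y) ^ κ)
    (hK2 : x < y ^ (K + 1)) : m + 1 ≤ κ * (K + 1) := by
  obtain ⟨hy, hxy, hm, hn, he⟩ := id h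
  obtain ⟨hd, -, -⟩ := gcd_facts h
  have h1 : (Nat.gcd x y : ℕ) ^ m < x := by
    have h2 : ((Nat.gcd x y : ℕ) : ℤ) ^ m ≤ (x : ℤ) - y :=
      Int.le_of_dvd (by have : (y : ℤ) < x := by exact_mod_cast hxy
                        linarith) hd
    have h3 : (((Nat.gcd x y : ℕ) ^ m : ℕ) : ℤ) < x := by
      push_cast
      have : (0 : ℤ) < y := by exact_mod_cast (show 0 < y by omega)
      linarith
    exact_mod_cast h3
  by_contra hlt
  push Not at hlt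
  have h4 : κ * (K + 1) ≤ m := by omega
  have h5 : y ^ m ≤ (y ^ (K + 1)) ^ κ := by
    calc y ^ m ≤ ((Nat.gcd x y) ^ κ) ^ m := Nat.pow_le_pow_left hgk m
      _ = ((Nat.gcd x y) ^ m) ^ κ := by rw [← pow_mul, ← pow_mul, mul_comm]
      _ ≤ x ^ κ := Nat.pow_le_pow_left h1.le κ
      _ ≤ (y ^ (K + 1)) ^ κ := Nat.pow_le_pow_left hK2.le κ
  rcases Nat.eq_zero_or_pos κ with h0 | h0
  · subst h0
    simp only [pow_zero] at hgk
    omega
  · have h6 : x ^ κ < (y ^ (K + 1)) ^ κ := Nat.pow_lt_pow_left hK2 (by omega)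
    have h7 : y ^ m < y ^ (κ * (K + 1)) := by
      calc y ^ m ≤ ((Nat.gcd x y) ^ κ) ^ m := Nat.pow_le_pow_left hgk m
        _ = ((Nat.gcd x y) ^ m) ^ κ := by rw [← pow_mul, ← pow_mul, mul_comm]
        _ ≤ x ^ κ := Nat.pow_le_pow_left h1.le κ
        _ < (y ^ (K + 1)) ^ κ := h6
        _ = y ^ (κ * (K + 1)) := by rw [← pow_mul, mul_comm]
    have h8 := (Nat.pow_lt_pow_iff_right (by omega : 1 < y)).1 h7
    omega

/-- No solution in the middle range `log x / log y < 12 κ m`. -/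
theorem no_mid {κ x y m n K : ℕ} (hκ : 1 ≤ κ) (hm : 1000 * κ ^ 5 ≤ m) (h : Sol x y m n)
    (hgk : y ≤ (Nat.gcd x y) ^ κ) (hy2 : 2 ^ (300 * κ ^ 3) ≤ y) (hK : y ^ K ≤ x)
    (hxK : x < y ^ (K + 1)) (hK2 : 2 * K < (m + 1) * (24 * κ - 1)) : False := by
  obtain ⟨hy, hxy, hm3, hn, he⟩ := id h
  obtain ⟨hd, hcx, hcy⟩ := gcd_facts h
  have hK1 := log_lower h hgk hxK
  obtain ⟨g, hg⟩ : ∃ g, g = Nat.gcd x y := ⟨_, rfl⟩
  obtain ⟨d, hdd⟩ : ∃ d, d = 30 * κ ^ 2 - 1 := ⟨_, rfl⟩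
  obtain ⟨k, hk⟩ : ∃ k, k = K / (30 * κ ^ 2) := ⟨_, rfl⟩
  obtain ⟨L, hL⟩ : ∃ L, L = (d + 1) * (k + 1) - 1 := ⟨_, rfl⟩
  obtain ⟨H, hH⟩ : ∃ H, H = d * (d + 1) / 2 + 1 := ⟨_, rfl⟩
  obtain ⟨c1, c2, c3, c4, c5⟩ := curve_params hκ hm hdd hk hL hH hK1 hK2
  rw [← hg] at hgk hd hcx hcy
  have hg1 : 1 ≤ g := by
    rw [hg]
    exact Nat.gcd_pos_of_pos_left _ (by omega)
  obtain ⟨p, hp⟩ : ∃ p, p = x / g := ⟨_, rfl⟩
  obtain ⟨q, hq⟩ : ∃ q, q = y / g := ⟨_, rfl⟩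
  have hxp : x = g * p := by
    rw [hp, Nat.mul_div_cancel' (by rw [hg]; exact Nat.gcd_dvd_left x y)]
  have hyq : y = g * q := by
    rw [hq, Nat.mul_div_cancel' (by rw [hg]; exact Nat.gcd_dvd_right x y)]
  rw [← hp] at hcx
  rw [← hq] at hcy
  obtain ⟨s1, s2⟩ := sol_curve h hg1 hxp hyq hd
  have hq1 : 1 ≤ q := by
    rcases Nat.eq_zero_or_pos q with h0 | h0
    · rw [h0, mul_zero] at hyq
      omega
    · exact h0
  have hqp : q < p := by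
    have : g * q < g * p := by rw [← hxp, ← hyq]; exact hxy
    exact lt_of_mul_lt_mul_left' this
  have hpn : y ^ ((m - 1) * K) ≤ y ^ n := by
    calc y ^ ((m - 1) * K) = (y ^ K) ^ (m - 1) := by rw [← pow_mul, mul_comm]
      _ ≤ x ^ (m - 1) := Nat.pow_le_pow_left hK _
      _ ≤ y ^ n := pow_le h
  have hKn : (m - 1) * K ≤ n := (Nat.pow_le_pow_iff_right (by omega : 1 < y)).1 hpn
  obtain ⟨w, hw⟩ : ∃ w, w = (m - 1) * K - 1 := ⟨_, rfl⟩
  have hw1 : w ≤ n - 1 := by omega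
  have hw2 : w ≤ (m - 1) * L := by
    have : (m - 1) * K ≤ (m - 1) * L := Nat.mul_le_mul_left _ c2
    omega
  have hZ : |(1 - (y : ℤ)) * (y : ℤ) ^ (m - 1)| ≤ (y : ℤ) ^ m := by
    have hy1 : (1 : ℤ) ≤ y := by exact_mod_cast (show 1 ≤ y by omega)
    rw [abs_mul, abs_of_nonpos (by linarith : 1 - (y : ℤ) ≤ 0), abs_of_nonneg (by positivity)]
    calc -(1 - (y : ℤ)) * (y : ℤ) ^ (m - 1) ≤ (y : ℤ) * (y : ℤ) ^ (m - 1) := by
          apply mul_le_mul_of_nonneg_right (by linarith) (by positivity)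
      _ = (y : ℤ) ^ m := by rw [← pow_succ', Nat.sub_add_cancel (by omega)]
  have hz0 : (1 - (y : ℤ)) * (y : ℤ) ^ (m - 1) ≠ 0 := by
    apply mul_ne_zero
    · have : (2 : ℤ) ≤ y := by exact_mod_cast hy
      omega
    · exact pow_ne_zero _ (by exact_mod_cast (show y ≠ 0 by omega))
  obtain ⟨s, t, hst, hs, ht, hmain⟩ := curve_ineq (m := m) (d := d) (k := k) (L := L) (H := H)
    (w := w) c1 (g : ℤ) ((1 - (y : ℤ)) * (y : ℤ) ^ (m - 1)) (p : ℤ) (q : ℤ) ((y : ℤ) ^ m)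
    (by exact_mod_cast hg1) hz0 hZ (by exact_mod_cast hq1) (by exact_mod_cast hqp)
    (Nat.isCoprime_iff_coprime.2 hcx) (Nat.isCoprime_iff_coprime.2 hcy)
    ((pow_dvd_pow _ hw1).trans s1) (by
      refine (pow_dvd_pow _ hw2).trans ?_
      rw [pow_mul]
      exact pow_dvd_pow_of_dvd s2 L) c3
  have hmain' : g ^ (w * t) ≤ ((d + 1) * (k + 1)).factorial * (2 ^ (m * d + k)) ^ s *
        ((y ^ m) ^ d * 2 ^ (m * d + k) * p ^ (k + H)) ^ t := by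
    exact_mod_cast hmain
  have hp1 : p ^ (k + H) ≤ y ^ ((K + 1) * (k + H)) := by
    rw [pow_mul]
    refine Nat.pow_le_pow_left ?_ _
    have : p ≤ x := by
      rw [hp]
      exact Nat.div_le_self _ _
    omega
  have hfin : y ^ (w * t) ≤ (((d + 1) * (k + 1)).factorial * (2 ^ (m * d + k)) ^ s *
      (y ^ (m * d) * 2 ^ (m * d + k) * y ^ ((K + 1) * (k + H))) ^ t) ^ κ := by
    calc y ^ (w * t) ≤ (g ^ κ) ^ (w * t) := Nat.pow_le_pow_left hgk _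
      _ = (g ^ (w * t)) ^ κ := by rw [← pow_mul, ← pow_mul, mul_comm]
      _ ≤ _ := by
        refine Nat.pow_le_pow_left (hmain'.trans ?_) κ
        refine Nat.mul_le_mul_left _ (Nat.pow_le_pow_left ?_ t)
        rw [← pow_mul]
        exact Nat.mul_le_mul_left _ hp1
  have hlt := curve_powers (m := m) (K := K) (H := H) hκ hy2 hL c4 c5 hst hs
  rw [hw] at hfin
  omega

end Pool.Agent.MP_88e4f4_nt.TK
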