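import Pool.Agent.MP_88e4f4_nt.TK.K7
import Pool.Agent.MP_88e4f4_nt.TK.Z11

set_option autoImplicit false

namespace Pool.Agent.MP_88e4f4_nt.TK

open Pool.Agent.MP_88e4f4_nt.GB

/-- A solution with a large gcd of the bases has a small base `y`. -/
theorem y_bound {κ x y m n : ℕ} (hκ : 1 ≤ κ) (hm : 1000 * κ ^ 5 ≤ m) (h : Sol x y m n)
    (hgk : y ≤ (Nat.gcd x y) ^ κ) : y < max (m ^ (96 * κ)) (2 ^ (300 * κ ^ 3)) := by
  by_contra hlt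
  push Not at hlt
  obtain ⟨ha, hb⟩ := max_le_iff.1 hlt
  obtain ⟨hy, hxy, hm3, hn, he⟩ := id h
  have h1y : 1 < y := by omega
  obtain ⟨hd, hcx, hcy⟩ := gcd_facts h
  have hK : y ^ (Nat.log y x) ≤ x := Nat.pow_log_le_self _ (by omega)
  have hxK : x < y ^ (Nat.log y x + 1) := Nat.lt_pow_succ_log_self h1y x
  rcases Nat.lt_or_ge (2 * Nat.log y x) ((m + 1) * (24 * κ - 1)) with hK2 | hK2
  · exact no_mid hκ hm h hgk hb hK hxK hK2
  · have hκ3 : 1 ≤ κ ^ 3 := Nat.one_le_pow _ _ hκ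
    have hy13 : 13 ≤ y := by
      have h1 : 2 ^ 4 ≤ 2 ^ (300 * κ ^ 3) := Nat.pow_le_pow_right (by norm_num) (by omega)
      have h2 : (2 : ℕ) ^ 4 = 16 := by norm_num
      omega
    have hg1 : 1 ≤ Nat.gcd x y := Nat.gcd_pos_of_pos_left _ (by omega)
    have hgy : Nat.gcd x y ∣ y := Nat.gcd_dvd_right x y
    refine no_anchor_k (κ := κ) (y := y) (m := m) (a := y) (x := x) (g := Nat.gcd x y) (μ := m)
      (ν := n) (K := Nat.log y x) hκ hm hy ?_ hg1 hgy le_rfl hxy.le ?_ ?_ ?_ ?_ hK2 hxK ha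
    · -- `(y + 1) ^ 12 ≤ y ^ 13`
      have h1 : 12 * (y + 1) ≤ 13 * y := by omega
      have h2 : (12 * (y + 1)) ^ 12 ≤ (13 * y) ^ 12 := Nat.pow_le_pow_left h1 12
      rw [mul_pow, mul_pow] at h2
      have h3 : (13 : ℕ) ^ 12 * y ^ 12 ≤ 12 ^ 12 * y ^ 13 := by
        have h4 : (13 : ℕ) ^ 12 ≤ 12 ^ 12 * y := by
          calc (13 : ℕ) ^ 12 ≤ 12 ^ 12 * 13 := by norm_num
            _ ≤ 12 ^ 12 * y := Nat.mul_le_mul_left _ hy13
        calc (13 : ℕ) ^ 12 * y ^ 12 ≤ (12 ^ 12 * y) * y ^ 12 := Nat.mul_le_mul_right _ h4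
          _ = 12 ^ 12 * y ^ 13 := by ring
      exact Nat.le_of_mul_le_mul_left (h2.trans h3) (by norm_num)
    · rw [← neg_sub]
      exact (dvd_neg).2 hd
    · have h1 : ((Nat.gcd x y : ℕ) : ℤ) ^ n ∣ (y : ℤ) ^ n :=
        pow_dvd_pow_of_dvd (Int.natCast_dvd_natCast.2 hgy) n
      have h2 : (y : ℤ) ^ n ∣ ((y : ℤ) - 1) * (x : ℤ) ^ m + x - y :=
        ⟨(x : ℤ) - 1, by rw [rel h]; ring⟩
      exact h1.trans h2
    · calc y ^ (m - 1) ≤ y ^ m := Nat.pow_le_pow_right (by omega) (by omega)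
        _ ≤ ((Nat.gcd x y) ^ κ) ^ m := Nat.pow_le_pow_left hgk m
        _ = (Nat.gcd x y) ^ (κ * m) := by rw [← pow_mul]
    · calc y ^ ((m - 1) * Nat.log y x) = (y ^ Nat.log y x) ^ (m - 1) := by
            rw [← pow_mul, mul_comm]
        _ ≤ x ^ (m - 1) := Nat.pow_le_pow_left hK _
        _ ≤ y ^ n := pow_le h
        _ ≤ ((Nat.gcd x y) ^ κ) ^ n := Nat.pow_le_pow_left hgk n
        _ = (Nat.gcd x y) ^ (κ * n) := by rw [← pow_mul]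

/-- For fixed `m` there are only finitely many solutions with a large gcd of the bases. -/
theorem finite_k (κ m : ℕ) (hκ : 1 ≤ κ) (hm : 1000 * κ ^ 5 ≤ m) :
    {p : ℕ × ℕ × ℕ | Sol p.1 p.2.1 m p.2.2 ∧ p.2.1 ≤ (Nat.gcd p.1 p.2.1) ^ κ}.Finite := by
  have h1 : {p : ℕ × ℕ × ℕ | Sol p.1 p.2.1 m p.2.2 ∧ p.2.1 ≤ (Nat.gcd p.1 p.2.1) ^ κ} ⊆
      ⋃ y ∈ Finset.range (max (m ^ (96 * κ)) (2 ^ (300 * κ ^ 3))),
        (fun q : ℕ × ℕ => (q.1, y, q.2)) ''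
          {p : ℕ × ℕ | Sol p.1 y m p.2 ∧ y ≤ (Nat.gcd p.1 y) ^ κ} := by
    rintro ⟨x, y, n⟩ ⟨hs, hd⟩
    simp only [Set.mem_iUnion]
    refine ⟨y, ?_, (x, n), ⟨hs, hd⟩, rfl⟩
    rw [Finset.mem_range]
    exact y_bound hκ hm hs hd
  refine Set.Finite.subset ?_ h1
  apply Set.Finite.biUnion (Finset.finite_toSet _)
  intro y _
  exact (finite_fixed_k κ y m hκ hm).image _

end Pool.Agent.MP_88e4f4_nt.TK
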