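import Pool.Agent.MP_88e4f4_nt.TS.G5
import Pool.Agent.MP_88e4f4_nt.TK.W1

set_option autoImplicit false

namespace Pool.Agent.MP_88e4f4_nt.TK

open Pool.Agent.MP_88e4f4_nt.GB Pool.Agent.MP_88e4f4_nt.TS

/-- A divisor of `y` composed of primes that divide `x` or are good divides the gcd. -/
theorem dvd_gcd_of_good {x y m n g : ℕ} (h : Sol x y m n) (hgy : g ∣ y)
    (hq : ∀ q : ℕ, q.Prime → q ∣ g → q ∣ x ∨ Nat.Coprime (m - 1) (q * (q - 1))) :
    g ∣ Nat.gcd x y := by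
  obtain ⟨-, -, hcy⟩ := gcd_facts h
  have h1 : ∀ q : ℕ, q.Prime → q ∣ g → q ∣ Nat.gcd x y := by
    intro q hqp hqg
    refine Nat.dvd_gcd ?_ (hqg.trans hgy)
    exact (hq q hqp hqg).elim id (good_prime_dvd h hqp (hqg.trans hgy))
  have h2 : Nat.Coprime g (y / Nat.gcd x y) := by
    refine Nat.coprime_of_dvd fun q hqp hqg hqy => ?_
    have h3 : q ∣ Nat.gcd (y / Nat.gcd x y) (Nat.gcd x y) := Nat.dvd_gcd hqy (h1 q hqp hqg)
    rw [hcy] at h3
    exact hqp.one_lt.ne' (Nat.dvd_one.1 h3)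
  have h4 : g ∣ Nat.gcd x y * (y / Nat.gcd x y) := by
    rw [Nat.mul_div_cancel' (Nat.gcd_dvd_right x y)]
    exact hgy
  exact h2.dvd_of_dvd_mul_right h4

/-- The hypothesis on a divisor gives the hypothesis on the gcd. -/
theorem le_gcd_pow {κ x y m n g : ℕ} (h : Sol x y m n) (hgy : g ∣ y)
    (hq : ∀ q : ℕ, q.Prime → q ∣ g → q ∣ x ∨ Nat.Coprime (m - 1) (q * (q - 1)))
    (hgk : y ≤ g ^ κ) : y ≤ (Nat.gcd x y) ^ κ := by
  refine hgk.trans (Nat.pow_le_pow_left ?_ κ)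
  exact Nat.le_of_dvd (Nat.gcd_pos_of_pos_left _ (by have := h.1; have := h.2.1; omega))
    (dvd_gcd_of_good h hgy hq)

end Pool.Agent.MP_88e4f4_nt.TK
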