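import Pool.Agent.MP_88e4f4_nt.GBasic

set_option autoImplicit false

namespace Pool.Agent.MP_88e4f4_nt.TK

open Pool.Agent.MP_88e4f4_nt.GB

/-- ROW K6. The gcd of the bases of a solution.

Proof. Let `p` be a prime dividing both `x` and `y`, `a = v_p(x) ≥ 1`, `b = v_p(y) ≥ 1`.
By `rel h`, `x - y = y ^ n (x - 1) - (y - 1) x ^ m`; `x - 1` and `y - 1` are prime to `p`. The right side
is divisible by `p ^ (3 min a b)`, so if `a ≠ b` we get a contradiction, as `v_p(x - y) = min a b`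
then. So `a = b`, hence `v_p(gcd) = v_p(x) = v_p(y)` and `p` divides neither `x / gcd` nor `y / gcd`;
this is the coprimality. (If `p ∤ x` or `p ∤ y` then `p ∤ gcd`.) Moreover `p ^ (m b)` divides
`y ^ n` (`lt_len h : m < n`) and `x ^ m`. So, with `g = gcd x y`, already `g ^ m ∣ y ^ n` and
`g ^ m ∣ x ^ m` and the first claim is immediate from `rel h`. For the coprimality it is perhaps easiest
to write `x = g p`, `y = g q` with `p, q` coprime: `g (p - q) = x - y` is divisible by `g ^ m`, so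
`g ^ (m-1) ∣ p - q`, `m ≥ 3`. If a prime `r` divides `g` and `p` then `r ∣ q` as `r ∣ p - q`: a
contradiction to `p, q` coprime. The same for `q`. -/
theorem gcd_facts {x y m n : ℕ} (h : Sol x y m n) :
    ((Nat.gcd x y : ℕ) : ℤ) ^ m ∣ (x : ℤ) - y ∧ Nat.Coprime (x / Nat.gcd x y) (Nat.gcd x y) ∧
      Nat.Coprime (y / Nat.gcd x y) (Nat.gcd x y) := by
  have hlt := lt_len h
  have hr := rel h
  obtain ⟨hy, hxy, hm, hn, -⟩ := h
  have hg0 : 0 < Nat.gcd x y := Nat.gcd_pos_of_pos_left _ (by omega)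
  have hcop : Nat.Coprime (x / Nat.gcd x y) (y / Nat.gcd x y) := Nat.coprime_div_gcd_div_gcd hg0
  have hgx : Nat.gcd x y ∣ x := Nat.gcd_dvd_left x y
  have hgy : Nat.gcd x y ∣ y := Nat.gcd_dvd_right x y
  generalize Nat.gcd x y = g at hg0 hcop hgx hgy ⊢
  have hdiv : (g : ℤ) ^ m ∣ (x : ℤ) - y := by
    have e : (x : ℤ) - y = (y : ℤ) ^ n * ((x : ℤ) - 1) - ((y : ℤ) - 1) * (x : ℤ) ^ m := by linarith
    rw [e]
    apply dvd_sub
    · exact Dvd.dvd.mul_right ((pow_dvd_pow _ hlt.le).trans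
        (pow_dvd_pow_of_dvd (Int.natCast_dvd_natCast.2 hgy) n)) _
    · exact Dvd.dvd.mul_left (pow_dvd_pow_of_dvd (Int.natCast_dvd_natCast.2 hgx) m) _
  obtain ⟨p, rfl⟩ := hgx
  obtain ⟨q, rfl⟩ := hgy
  rw [Nat.mul_div_cancel_left _ hg0, Nat.mul_div_cancel_left _ hg0] at hcop ⊢
  have hgz : (g : ℤ) ≠ 0 := by exact_mod_cast hg0.ne'
  have hpq : (g : ℤ) ∣ (p : ℤ) - q := by
    have h1 : (g : ℤ) * (g : ℤ) ∣ (g : ℤ) * ((p : ℤ) - q) := by
      have h2 : (g : ℤ) * g ∣ (g : ℤ) ^ m := by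
        rw [← sq]
        exact pow_dvd_pow _ (by omega)
      have h3 := h2.trans hdiv
      have e : (((g * p : ℕ) : ℤ)) - ((g * q : ℕ) : ℤ) = (g : ℤ) * ((p : ℤ) - q) := by
        push_cast; ring
      rwa [e] at h3
    exact (mul_dvd_mul_iff_left hgz).1 h1
  refine ⟨hdiv, ?_, ?_⟩
  · by_contra hc
    obtain ⟨r, hr, h1, h2⟩ := Nat.Prime.not_coprime_iff_dvd.1 hc
    have h3 : (r : ℤ) ∣ (p : ℤ) - q := (Int.natCast_dvd_natCast.2 h2).trans hpq
    have h4 : (r : ℤ) ∣ (q : ℤ) := by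
      have := dvd_sub (Int.natCast_dvd_natCast.2 h1) h3
      simpa using this
    exact Nat.Prime.not_coprime_iff_dvd.2 ⟨r, hr, h1, Int.natCast_dvd_natCast.1 h4⟩ hcop
  · by_contra hc
    obtain ⟨r, hr, h1, h2⟩ := Nat.Prime.not_coprime_iff_dvd.1 hc
    have h3 : (r : ℤ) ∣ (p : ℤ) - q := (Int.natCast_dvd_natCast.2 h2).trans hpq
    have h4 : (r : ℤ) ∣ (p : ℤ) := by
      have := dvd_add h3 (Int.natCast_dvd_natCast.2 h1)
      simpa using this
    exact Nat.Prime.not_coprime_iff_dvd.2 ⟨r, hr, Int.natCast_dvd_natCast.1 h4, h1⟩ hcop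

/-- ROW K6 (second part). Two multiples of `g` (`g ∣ y`) at which the trinomial is divisible by `g ^ e`
are congruent modulo `g ^ e`. Port of `root_unique` of `TS/F2.lean`.

Proof. `f(x) - f(x') = (x - x') * (1 + (y - 1) * G)` with `G = ∑ i < m, x ^ i x' ^ (m - 1 - i)`
(`Commute.geom_sum₂_mul`). As `m ≥ 2` and `g` divides `x` and `x'`, `g ∣ G`, so the second factor is
coprime to `g`, hence to `g ^ e`. (`g ∣ y` is not needed.) -/
theorem root_unique_g {g y m e : ℕ} (hm : 2 ≤ m) {x x' : ℤ} (hx : (g : ℤ) ∣ x) (hx' : (g : ℤ) ∣ x')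
    (h : (g : ℤ) ^ e ∣ ((y : ℤ) - 1) * x ^ m + x - y)
    (h' : (g : ℤ) ^ e ∣ ((y : ℤ) - 1) * x' ^ m + x' - y) : (g : ℤ) ^ e ∣ x - x' := by
  obtain ⟨G, hG⟩ : ∃ G : ℤ, G = ∑ i ∈ Finset.range m, x ^ i * x' ^ (m - 1 - i) := ⟨_, rfl⟩
  have hgeo : G * (x - x') = x ^ m - x' ^ m := by
    rw [hG]
    exact (Commute.all x x').geom_sum₂_mul m
  have hgG : (g : ℤ) ∣ G := by
    rw [hG]
    apply Finset.dvd_sum
    intro i hi
    rcases Nat.eq_zero_or_pos i with rfl | hi0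
    · exact Dvd.dvd.mul_left (dvd_pow hx' (by omega)) _
    · exact Dvd.dvd.mul_right (dvd_pow hx hi0.ne') _
  obtain ⟨k, hk⟩ := hgG
  have hcop : IsCoprime ((g : ℤ) ^ e) (1 + ((y : ℤ) - 1) * G) := by
    apply IsCoprime.pow_left
    refine ⟨-(((y : ℤ) - 1) * k), 1, ?_⟩
    rw [hk]; ring
  apply hcop.dvd_of_dvd_mul_right
  have e1 : (x - x') * (1 + ((y : ℤ) - 1) * G) =
      (((y : ℤ) - 1) * x ^ m + x - y) - (((y : ℤ) - 1) * x' ^ m + x' - y) := by
    linear_combination ((y : ℤ) - 1) * hgeo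
  rw [e1]
  exact dvd_sub h h'

end Pool.Agent.MP_88e4f4_nt.TK
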