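import Pool.Agent.MP_88e4f4_nt.TS.C1
import Pool.Agent.MP_88e4f4_nt.TS.C2

set_option autoImplicit false

namespace Pool.Agent.MP_88e4f4_nt.TK

open Polynomial Pool.Agent.MP_88e4f4_nt.TS

/-- The congruence of row C3 of TS with a general modulus `g ^ w`. -/
theorem congr_row_g {y m a x g μ ν K w k D T Q M : ℕ} (l i j : ℕ) (hi : i < D) (hj : j < k + 1)
    (hM : D + k ≤ M + 1) (hTD : T ≤ D)
    (hμ : (g : ℤ) ^ μ ∣ (a : ℤ) - x) (hν : (g : ℤ) ^ ν ∣ ((y : ℤ) - 1) * (x : ℤ) ^ m + x - y)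
    (hl : l + K ≤ T) (hwν : w ≤ ν) (hwμ : w ≤ μ * K)
    (cc : ℕ → ℕ → ℤ) (hc : ∀ N ≤ M, ∃ q : ℤ[X],
      C ((y : ℤ) - 1) ^ Q * X ^ N = ∑ s ∈ Finset.range m, C (cc N s) * X ^ s + fp y m * q) :
    ∃ q : ℤ, ((y : ℤ) - 1) ^ Q * ((i.choose l : ℤ) * (a : ℤ) ^ (i - l) * (x : ℤ) ^ j) =
      ∑ l' ∈ Finset.range T, ∑ s ∈ Finset.range m,
        ((l'.choose l : ℤ) * ((a : ℤ) - x) ^ (l' - l) * (x : ℤ) ^ s) *
          ((i.choose l' : ℤ) * cc (i - l' + j) s) + (g : ℤ) ^ w * q := by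
  have key : (g : ℤ) ^ w ∣ ((y : ℤ) - 1) ^ Q * ((i.choose l : ℤ) * (a : ℤ) ^ (i - l) * (x : ℤ) ^ j) -
      ∑ l' ∈ Finset.range T, ∑ s ∈ Finset.range m,
        ((l'.choose l : ℤ) * ((a : ℤ) - x) ^ (l' - l) * (x : ℤ) ^ s) *
          ((i.choose l' : ℤ) * cc (i - l' + j) s) := by
    have h1 : ((y : ℤ) - 1) ^ Q * ((i.choose l : ℤ) * (a : ℤ) ^ (i - l) * (x : ℤ) ^ j) =
        ∑ l' ∈ Finset.range D, ((i.choose l' : ℤ) * (l'.choose l : ℤ) * ((a : ℤ) - x) ^ (l' - l)) *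
          (((y : ℤ) - 1) ^ Q * (x : ℤ) ^ (i - l' + j)) := by
      rw [taylor_expand i l D hi (a : ℤ) x, Finset.sum_mul, Finset.mul_sum]
      refine Finset.sum_congr rfl fun l' _ => ?_
      rw [pow_add]
      ring
    rw [h1]
    obtain ⟨E, rfl⟩ := Nat.exists_eq_add_of_le hTD
    rw [Finset.sum_range_add, add_sub_right_comm, ← Finset.sum_sub_distrib]
    refine dvd_add (Finset.dvd_sum fun l' hl' => ?_) (Finset.dvd_sum fun t _ => ?_)
    · obtain ⟨q, hq⟩ := hc (i - l' + j) (by omega)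
      have h2 := congrArg (Polynomial.eval (x : ℤ)) hq
      simp only [fp, eval_mul, eval_pow, eval_C, eval_X, eval_add, eval_sub, eval_finsetSum] at h2
      rw [h2, mul_add, Finset.mul_sum, add_sub_right_comm, ← Finset.sum_sub_distrib]
      refine dvd_add (Finset.dvd_sum fun s _ => ?_) ?_
      · have h3 : ((i.choose l' : ℤ) * (l'.choose l : ℤ) * ((a : ℤ) - x) ^ (l' - l)) *
            (cc (i - l' + j) s * (x : ℤ) ^ s) -
            ((l'.choose l : ℤ) * ((a : ℤ) - x) ^ (l' - l) * (x : ℤ) ^ s) *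
              ((i.choose l' : ℤ) * cc (i - l' + j) s) = 0 := by ring
        rw [h3]
        exact dvd_zero _
      · exact Dvd.dvd.mul_left (Dvd.dvd.mul_right ((pow_dvd_pow _ hwν).trans hν) _) _
    · refine Dvd.dvd.mul_right (Dvd.dvd.mul_left ?_ _) _
      have h4 : w ≤ μ * (T + t - l) := hwμ.trans (Nat.mul_le_mul_left μ (by omega))
      refine (pow_dvd_pow _ h4).trans ?_
      rw [pow_mul]
      exact pow_dvd_pow_of_dvd hμ _
  obtain ⟨q, hq⟩ := key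
  exact ⟨q, by linarith⟩

end Pool.Agent.MP_88e4f4_nt.TK
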