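import Pool.Agent.MP_88e4f4_nt.TS.M1
import Pool.Agent.MP_88e4f4_nt.TK.K1

set_option autoImplicit false

namespace Pool.Agent.MP_88e4f4_nt.TK

open Polynomial Pool.Agent.MP_88e4f4_nt.TS

/-- The main inequality of row M1 of TS with a general modulus `g ^ w`, `g ∣ y`. -/
theorem anchor_ineq_g {y m a x g μ ν K k T D N Q R w : ℕ} (hy : 2 ≤ y) (hm : 2 ≤ m) (hya : y ≤ a)
    (hax : a ≤ x) (hK : 1 ≤ K) (hR : 1 ≤ R) (hg : 1 ≤ g) (hgy : g ∣ y)
    (hμ : (g : ℤ) ^ μ ∣ (a : ℤ) - x) (hν : (g : ℤ) ^ ν ∣ ((y : ℤ) - 1) * (x : ℤ) ^ m + x - y)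
    (hwν : w ≤ ν) (hwμ : w ≤ μ * K)
    (hNT : N + K ≤ T + 1) (hTD : T ≤ D) (hDR : D ≤ R * T + 1)
    (hz : (k + 1) * (D - 1) + (m + 1) * k < m * T + N)
    (hQ : D + k ≤ (Q + 1) * (m - 1) + 1) :
    ∃ s t : ℕ, s + t = D * (k + 1) ∧ s ≤ T * m ∧ t ≤ N ∧
      g ^ (w * t) ≤ (D * (k + 1)).factorial * ((3 * R) ^ T * (y + 1) ^ Q) ^ s *
        ((3 * R) ^ T * a ^ D * x ^ k) ^ t := by
  classical
  have ha1 : 1 ≤ a := by omega
  have hx1 : 1 ≤ x := by omega
  have hred : ∀ N' : ℕ, ∃ c : ℕ → ℤ, N' ≤ (Q + 1) * (m - 1) →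
      (∃ q : ℤ[X], C ((y : ℤ) - 1) ^ Q * X ^ N' =
        ∑ s ∈ Finset.range m, C (c s) * X ^ s + fp y m * q) ∧
      ∑ s ∈ Finset.range m, |c s| ≤ ((y : ℤ) + 1) ^ Q := by
    intro N'
    by_cases h : N' ≤ (Q + 1) * (m - 1)
    · obtain ⟨c, q, hc1, hc2⟩ := red_exists hy hm Q N' h
      exact ⟨c, fun _ => ⟨⟨q, hc1⟩, hc2⟩⟩
    · exact ⟨0, fun h' => absurd h' h⟩
  choose cc hcc using hred
  have hexp : ∀ i l j : ℕ, i < D → j < k + 1 → i - l + j ≤ (Q + 1) * (m - 1) := by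
    intro i l j hi hj
    omega
  have hrow : ∀ (l : Fin N) (p : Fin D × Fin (k + 1)), ∃ q : ℤ,
      ((y : ℤ) - 1) ^ Q * (((p.1 : ℕ).choose l : ℤ) * (a : ℤ) ^ ((p.1 : ℕ) - l) *
        (x : ℤ) ^ (p.2 : ℕ)) =
      ∑ l' ∈ Finset.range T, ∑ s ∈ Finset.range m,
        ((l'.choose l : ℤ) * ((a : ℤ) - x) ^ (l' - l) * (x : ℤ) ^ s) *
          (((p.1 : ℕ).choose l' : ℤ) * cc ((p.1 : ℕ) - l' + p.2) s) + (g : ℤ) ^ w * q := by
    intro l p
    have hl : (l : ℕ) + K ≤ T := by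
      have := l.2
      omega
    exact congr_row_g (M := (Q + 1) * (m - 1)) l p.1 p.2 p.1.2 p.2.2 hQ hTD hμ hν hl hwν hwμ cc
      (fun N' hN' => (hcc N' hN').1)
  choose q hq using hrow
  -- trivial bound for the reduction coefficients
  have hccb : ∀ N' ≤ (Q + 1) * (m - 1), ∀ s < m, |cc N' s| ≤ ((y : ℤ) + 1) ^ Q := by
    intro N' hN' s hs
    exact (Finset.single_le_sum (f := fun s => |cc N' s|) (fun _ _ => abs_nonneg _)
      (Finset.mem_range.2 hs)).trans (hcc N' hN').2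
  have hch : ∀ (i l : ℕ), i < D → l ≤ T → ((i.choose l : ℕ) : ℤ) ≤ (3 * (R : ℤ)) ^ T := by
    intro i l hi hl
    have h3 := choose_le (R := R) (T := T) (i := i) (l := l) hR (by omega) hl
    exact_mod_cast h3
  have hcore := core_ineq (I := Fin D × Fin (k + 1)) (A := Fin T × Fin m) (L := Fin N)
    (fun p r => ((r.1 : ℕ).choose p.1 : ℤ) * cc ((r.1 : ℕ) - p.1 + r.2) p.2)
    (fun l r => ((r.1 : ℕ).choose l : ℤ) * (a : ℤ) ^ ((r.1 : ℕ) - l) * (x : ℤ) ^ (r.2 : ℕ))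
    ?_ (g : ℤ) (((y : ℤ) - 1) ^ Q) (by exact_mod_cast hg) ?_ w
    (fun l p => ((p.1 : ℕ).choose l : ℤ) * ((a : ℤ) - x) ^ ((p.1 : ℕ) - l) * (x : ℤ) ^ (p.2 : ℕ))
    q ?_ ((3 * (R : ℤ)) ^ T * ((y : ℤ) + 1) ^ Q) ((3 * (R : ℤ)) ^ T * (a : ℤ) ^ D * (x : ℤ) ^ k)
    ?_ ?_
  · obtain ⟨s, t, hst, hs, ht, hfin⟩ := hcore
    refine ⟨s, t, ?_, ?_, ?_, ?_⟩
    · rw [hst, Fintype.card_prod, Fintype.card_fin, Fintype.card_fin]
    · rwa [Fintype.card_prod, Fintype.card_fin, Fintype.card_fin] at hs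
    · rwa [Fintype.card_fin] at ht
    · rw [Fintype.card_prod, Fintype.card_fin, Fintype.card_fin] at hfin
      exact_mod_cast hfin
  · -- the kernel
    intro c hc1 hc2
    obtain ⟨c', hc'⟩ : ∃ c' : ℕ → ℕ → ℚ, ∀ i j, c' i j =
        if h : i < D ∧ j < k + 1 then c (⟨i, h.1⟩, ⟨j, h.2⟩) else 0 := ⟨_, fun _ _ => rfl⟩
    have hcc' : ∀ p : Fin D × Fin (k + 1), c' p.1 p.2 = c p := by
      intro p
      rw [hc', dif_pos ⟨p.1.2, p.2.2⟩]
    have hzero := kernel_zero (N := N) (T := T) (D := D) hy hm hya (hya.trans hax) hTD (by omega) hz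
      c' ?_ ?_
    · funext p
      rw [← hcc' p]
      exact hzero _ p.1.2 _ p.2.2
    · intro b hb l hl
      have hy1 : ((y : ℂ) - 1) ^ Q ≠ 0 := by
        apply pow_ne_zero
        rw [sub_ne_zero]
        exact_mod_cast (show y ≠ 1 by omega)
      have hmain : ((y : ℂ) - 1) ^ Q * ∑ i ∈ Finset.range D, ∑ j ∈ Finset.range (k + 1),
          (c' i j : ℂ) * (i.choose l : ℂ) * b ^ (i - l + j) = 0 := by
        have e1 : ((y : ℂ) - 1) ^ Q * ∑ i ∈ Finset.range D, ∑ j ∈ Finset.range (k + 1),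
            (c' i j : ℂ) * (i.choose l : ℂ) * b ^ (i - l + j) =
            ∑ i ∈ Finset.range D, ∑ j ∈ Finset.range (k + 1), ∑ s ∈ Finset.range m,
              b ^ s * ((c' i j : ℂ) * ((i.choose l : ℂ) * (cc (i - l + j) s : ℂ))) := by
          rw [Finset.mul_sum]
          refine Finset.sum_congr rfl fun i hi => ?_
          rw [Finset.mul_sum]
          refine Finset.sum_congr rfl fun j hj => ?_
          obtain ⟨q', hq'⟩ := (hcc (i - l + j)
            (hexp i l j (Finset.mem_range.1 hi) (Finset.mem_range.1 hj))).1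
          have e2 := m1_eval (cc (i - l + j)) hq' b hb
          have e3 : ((y : ℂ) - 1) ^ Q * ((c' i j : ℂ) * (i.choose l : ℂ) * b ^ (i - l + j)) =
              (c' i j : ℂ) * (i.choose l : ℂ) * (((y : ℂ) - 1) ^ Q * b ^ (i - l + j)) := by ring
          rw [e3, e2, Finset.mul_sum]
          refine Finset.sum_congr rfl fun s _ => ?_
          ring
        rw [e1]
        have e4 : ∑ i ∈ Finset.range D, ∑ j ∈ Finset.range (k + 1), ∑ s ∈ Finset.range m,
              b ^ s * ((c' i j : ℂ) * ((i.choose l : ℂ) * (cc (i - l + j) s : ℂ))) =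
            ∑ s ∈ Finset.range m, b ^ s * ∑ i ∈ Finset.range D, ∑ j ∈ Finset.range (k + 1),
              ((c' i j : ℂ) * ((i.choose l : ℂ) * (cc (i - l + j) s : ℂ))) := by
          have e5 : ∀ i ∈ Finset.range D, ∑ j ∈ Finset.range (k + 1), ∑ s ∈ Finset.range m,
              b ^ s * ((c' i j : ℂ) * ((i.choose l : ℂ) * (cc (i - l + j) s : ℂ))) =
              ∑ s ∈ Finset.range m, ∑ j ∈ Finset.range (k + 1),
                b ^ s * ((c' i j : ℂ) * ((i.choose l : ℂ) * (cc (i - l + j) s : ℂ))) :=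
            fun i _ => Finset.sum_comm
          rw [Finset.sum_congr rfl e5, Finset.sum_comm]
          refine Finset.sum_congr rfl fun s _ => ?_
          rw [Finset.mul_sum]
          refine Finset.sum_congr rfl fun i _ => ?_
          rw [Finset.mul_sum]
        rw [e4]
        refine Finset.sum_eq_zero fun s hs => ?_
        have e6 := hc1 (⟨l, hl⟩, ⟨s, Finset.mem_range.1 hs⟩)
        have e7 : ∑ i ∈ Finset.range D, ∑ j ∈ Finset.range (k + 1),
            ((c' i j : ℂ) * ((i.choose l : ℂ) * (cc (i - l + j) s : ℂ))) = 0 := by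
          rw [m1_sum D (k + 1) (fun i j => ((c' i j : ℂ) * ((i.choose l : ℂ) *
            (cc (i - l + j) s : ℂ))))]
          have e8 := congrArg (fun r : ℚ => (r : ℂ)) e6
          simp only [Rat.cast_sum, Rat.cast_mul, Rat.cast_intCast, Rat.cast_zero, Int.cast_mul,
            Int.cast_natCast, Rat.cast_natCast] at e8
          rw [← e8]
          refine Finset.sum_congr rfl fun p _ => ?_
          rw [hcc' p]
        rw [e7, mul_zero]
      exact (mul_eq_zero.1 hmain).resolve_left hy1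
    · intro l hl
      rw [m1_sum D (k + 1) (fun i j => c' i j * (i.choose l : ℚ) * (a : ℚ) ^ (i - l) *
        (x : ℚ) ^ j)]
      have e8 := hc2 ⟨l, hl⟩
      rw [← e8]
      refine Finset.sum_congr rfl fun p _ => ?_
      rw [hcc' p]
      push_cast
      ring
  · -- coprimality
    have h1 : IsCoprime ((y : ℤ) - 1) (y : ℤ) := ⟨-1, 1, by ring⟩
    have h2 : IsCoprime ((y : ℤ) - 1) (g : ℤ) :=
      h1.of_isCoprime_of_dvd_right (Int.natCast_dvd_natCast.2 hgy)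
    exact h2.pow_left
  · -- the congruence
    intro l r
    rw [hq l r]
    congr 1
    exact m1_sum T m (fun l' s => ((l'.choose l : ℤ) * ((a : ℤ) - x) ^ (l' - (l : ℕ)) *
      (x : ℤ) ^ s) * (((r.1 : ℕ).choose l' : ℤ) * cc ((r.1 : ℕ) - l' + r.2) s))
  · -- the bound `U`
    intro p r
    rw [abs_mul, abs_of_nonneg (Int.natCast_nonneg _)]
    exact mul_le_mul (hch _ _ r.1.2 p.1.2.le)
      (hccb _ (hexp _ _ _ r.1.2 r.2.2) _ p.2.2) (abs_nonneg _) (by positivity)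
  · -- the bound `V`
    intro l r
    rw [abs_of_nonneg (by positivity)]
    have hlT : (l : ℕ) ≤ T := by
      have := l.2
      omega
    have ha' : (1 : ℤ) ≤ a := by exact_mod_cast ha1
    have hx' : (1 : ℤ) ≤ x := by exact_mod_cast hx1
    have g1 : (a : ℤ) ^ ((r.1 : ℕ) - l) ≤ (a : ℤ) ^ D :=
      pow_le_pow_right₀ ha' (by have := r.1.2; omega)
    have g2 : (x : ℤ) ^ (r.2 : ℕ) ≤ (x : ℤ) ^ k := pow_le_pow_right₀ hx' (Nat.lt_succ_iff.1 r.2.2)
    exact mul_le_mul (mul_le_mul (hch _ _ r.1.2 hlT) g1 (by positivity) (by positivity)) g2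
      (by positivity) (by positivity)

end Pool.Agent.MP_88e4f4_nt.TK
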