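import Mathlib

set_option autoImplicit false

namespace Pool.Agent.MP_88e4f4_nt.TK

/-- The basic inequalities between the parameters. -/
theorem k4_basic {κ m k K N₀ T D Q : ℕ} (hκ : 1 ≤ κ) (hm : 1000 * κ ^ 5 ≤ m)
    (hk : k = 24 * κ - 1)
    (hK : (m + 1) * k ≤ 2 * K) (hN₀ : N₀ = 2 * K) (hT : T = N₀ + (m + 1) * k + K)
    (hD : D = (m * T + N₀) / (k + 1) + 1) (hQ : Q = (D + k) / (m - 1)) :
    k + 1 = 24 * κ ∧ 1000 * κ ^ 2 ≤ m ∧ 1000 * κ ≤ m ∧ 1000 ≤ m ∧ 23 * (m + 1) ≤ 2 * K ∧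
      N₀ ≤ T ∧ T ≤ 5 * K ∧
      (k + 1) * (D - 1) ≤ m * T + N₀ ∧ m * T + N₀ + 1 ≤ (k + 1) * D ∧ 1 ≤ D ∧
      Q * (m - 1) ≤ D + k ∧ D + k + 1 ≤ (Q + 1) * (m - 1) := by
  have h1 : k + 1 = 24 * κ := by omega
  have h2 : 1000 * κ ^ 2 ≤ m := by
    have : κ ^ 2 ≤ κ ^ 5 := Nat.pow_le_pow_right hκ (by norm_num)
    omega
  have h3 : 1000 * κ ≤ m := by
    have : κ ^ 1 ≤ κ ^ 5 := Nat.pow_le_pow_right hκ (by norm_num)
    rw [pow_one] at this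
    omega
  have h4 : 1000 ≤ m := by omega
  have h5 : 23 * (m + 1) ≤ 2 * K := by
    have : (m + 1) * 23 ≤ (m + 1) * k := Nat.mul_le_mul_left _ (by omega)
    omega
  have h9 : N₀ ≤ T := by
    rw [hT]
    exact le_trans (Nat.le_add_right _ _) (Nat.le_add_right _ _)
  have h10 : T ≤ 5 * K := by omega
  have hD1 : D - 1 = (m * T + N₀) / (k + 1) := by rw [hD, Nat.add_sub_cancel]
  have h11 : (k + 1) * (D - 1) ≤ m * T + N₀ := by
    rw [hD1]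
    exact Nat.mul_div_le _ _
  have h12 : m * T + N₀ + 1 ≤ (k + 1) * D := by
    rw [hD]
    exact Nat.lt_mul_div_succ (m * T + N₀) (Nat.succ_pos k)
  have h13 : 1 ≤ D := by
    rw [hD]
    exact Nat.le_add_left _ _
  have hm1 : 0 < m - 1 := by omega
  have h15 : Q * (m - 1) ≤ D + k := by
    rw [hQ]
    exact Nat.div_mul_le_self _ _
  have h16 : D + k + 1 ≤ (Q + 1) * (m - 1) := by
    rw [hQ, mul_comm]
    exact Nat.lt_mul_div_succ (D + k) hm1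
  exact ⟨h1, h2, h3, h4, h5, h9, h10, h11, h12, h13, h15, h16⟩

/-- ROW K4. The final numerical contradiction, a pure inequality (compare `final_numeric` in
`TS/M3.lean`, read its proof first).

Here `k = 24 κ - 1`, `N₀ = 2 K`, `T = N₀ + (m + 1) k + K`, `D = (m T + N₀) / (k + 1) + 1`,
`Q = (D + k) / (m - 1)`.

Proof. `m ≥ 1000 κ ^ 5`, so `m ≥ 1000 κ ^ 2 ≥ 1000 κ`, `m ≥ 1000`. `2 K ≥ (m + 1) k ≥ 23 (m + 1)`, so
`K ≥ 11 m`. `T ≤ 5 K`. `(k + 1) (D - 1) ≤ m T + N₀ ≤ (m + 1) T`, i.e. `24 κ (D - 1) ≤ (m + 1) T`, so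
`96 κ D ≤ 4 (m + 1) T + 96 κ ≤ 20 (m + 1) K + 96 κ`.
`96 κ (K + 1) k ≤ 2304 κ ^ 2 (K + 1) ≤ 2.304 m (K + 1)`. So
`96 (m - 1) K - (T + 96 κ D + 96 κ (K+1) k) ≥ 96 m K - 96 K - 5 K - 20 m K - 20 K - 96 κ - 2.304 m (K+1)
≥ 73 m K`. As `s + t = D (k + 1) ≥ m T + N₀ + 1` and `s ≤ T m`, `t ≥ 2 K + 1`.
`Q (m - 1) ≤ D + k`, so `104 κ Q (m - 1) ≤ 104 κ D + 104 κ k ≤ (104 / 24) (m + 1) T + 104 κ + 2496 κ ^ 2
≤ 21.67 (m + 1) K + 2.6 m`, hence `104 κ Q ≤ 21.8 K`. So `(T + 104 κ Q) s ≤ 26.8 K * 5 m K = 134 m K ^ 2`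
and `73 m K * t ≥ 146 m K ^ 2`. -/
theorem final_numeric_k {κ m k K N₀ T D Q s t : ℕ} (hκ : 1 ≤ κ) (hm : 1000 * κ ^ 5 ≤ m)
    (hk : k = 24 * κ - 1)
    (hK : (m + 1) * k ≤ 2 * K) (hN₀ : N₀ = 2 * K) (hT : T = N₀ + (m + 1) * k + K)
    (hD : D = (m * T + N₀) / (k + 1) + 1) (hQ : Q = (D + k) / (m - 1))
    (hs : s ≤ T * m) (hst : s + t = D * (k + 1)) :
    (T + 104 * κ * Q) * s + (T + 96 * κ * D + 96 * κ * (K + 1) * k) * t <
      96 * (m - 1) * K * t := by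
  obtain ⟨h1, h2, h3, h4, h5, h9, h10, h11, h12, h13, h15, h16⟩ :=
    k4_basic hκ hm hk hK hN₀ hT hD hQ
  obtain ⟨m', rfl⟩ : ∃ m', m = m' + 1 := ⟨m - 1, by omega⟩
  obtain ⟨D', rfl⟩ : ∃ D', D = D' + 1 := ⟨D - 1, by omega⟩
  rw [Nat.add_sub_cancel] at h15 h16 h11 ⊢
  have hN : N₀ = 2 * K := hN₀
  have hkk : k ≤ 24 * κ := by omega
  rw [h1] at h11 h12 hst
  clear hQ hD hT hN₀ hk h16 hK hm
  zify at *
  have hKpos : (0 : ℤ) < K := by linarith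
  have hκ0 : (0 : ℤ) ≤ κ := by linarith
  have hmK : (1000 : ℤ) * K ≤ (m' + 1) * K := mul_le_mul_of_nonneg_right h4 hKpos.le
  have hm'K : (999 : ℤ) * K ≤ m' * K := by linarith
  have hTm : ((m' : ℤ) + 2) * T ≤ (m' + 2) * (5 * K) :=
    mul_le_mul_of_nonneg_left h10 (by linarith)
  have hD24 : (24 : ℤ) * (κ * D') ≤ 5 * (m' * K) + 10 * K := by
    nlinarith
  have hκk : (κ : ℤ) * k ≤ 24 * κ ^ 2 := by nlinarith
  have hκk2 : (1000 : ℤ) * (κ * k) ≤ 24 * (m' + 1) := by nlinarith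
  have hQ104 : (10 : ℤ) * (104 * κ * Q) ≤ 218 * K := by
    have g0 : (κ : ℤ) * (Q * m') ≤ κ * (D' + 1 + k) := mul_le_mul_of_nonneg_left h15 hκ0
    have g1 : (10 : ℤ) * (104 * κ * Q) * m' ≤ 218 * K * m' := by nlinarith
    exact le_of_mul_le_mul_right g1 (by linarith)
  have hTQ : (10 : ℤ) * (T + 104 * κ * Q) ≤ 268 * K := by linarith
  have hs3 : (s : ℤ) ≤ 5 * ((m' + 1) * K) := by nlinarith
  have ht : (2 : ℤ) * K + 1 ≤ t := by nlinarith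
  have hKk : (1000 : ℤ) * (96 * κ * (K + 1) * k) ≤ 2304 * ((K + 1) * (m' + 1)) := by
    have g1 : (1000 : ℤ) * (κ * k) * (96 * (K + 1)) ≤ 24 * (m' + 1) * (96 * (K + 1)) :=
      mul_le_mul_of_nonneg_right hκk2 (by linarith)
    nlinarith
  have hA : (73 : ℤ) * ((m' + 1) * K) ≤
      96 * m' * K - (T + 96 * κ * (D' + 1) + 96 * κ * (K + 1) * k) := by
    nlinarith
  have hL : (10 : ℤ) * ((T + 104 * κ * Q) * s) ≤ 268 * K * (5 * ((m' + 1) * K)) := by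
    have g1 : (10 : ℤ) * (T + 104 * κ * Q) * s ≤ 268 * K * s :=
      mul_le_mul_of_nonneg_right hTQ (Int.natCast_nonneg s)
    have g2 : (268 : ℤ) * K * s ≤ 268 * K * (5 * ((m' + 1) * K)) :=
      mul_le_mul_of_nonneg_left hs3 (by linarith)
    linarith
  have hM : (73 : ℤ) * ((m' + 1) * K) * t ≤
      (96 * m' * K - (T + 96 * κ * (D' + 1) + 96 * κ * (K + 1) * k)) * t :=
    mul_le_mul_of_nonneg_right hA (Int.natCast_nonneg t)
  have hP : (0 : ℤ) < (m' + 1) * K := by nlinarith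
  have hN2 : ((m' + 1) * K : ℤ) * (2 * K + 1) ≤ (m' + 1) * K * t :=
    mul_le_mul_of_nonneg_left ht hP.le
  have hPK : (0 : ℤ) < (m' + 1) * K * K := mul_pos hP hKpos
  nlinarith

/-- ROW K4 (second part). The side conditions for these parameters (compare `side_conditions` in
`TS/M3.lean`).

Proof. With `N = (k+1)(D-1) + (m+1) k + 1 - m T` and `(k+1)(D-1) ≤ m T + N₀ < (k + 1) D`:
`N ≤ N₀ + (m+1) k + 1 = T - K + 1`, and `m T + N = (k+1)(D-1) + (m+1) k + 1` (the subtraction does not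
truncate). `T ≤ D`: `(k + 1) T ≤ m T` as `k + 1 ≤ m`. `D ≤ R T + 1` with `R = m / (24 κ) + 1`:
`(k + 1) R ≥ m + 1` and `(k + 1) (D - 1) ≤ (m + 1) T`. `D + k < (Q + 1)(m - 1)`.
`D (k+1) ≤ m T + N₀ + k + 1 ≤ T ^ 2` because `T ≥ 3 K ≥ 33 m`. `4 R ≤ m / 6 + 4 ≤ m`. -/
theorem side_conditions_k {κ m R k K N₀ T D Q N : ℕ} (hκ : 1 ≤ κ) (hm : 1000 * κ ^ 5 ≤ m)
    (hk : k = 24 * κ - 1) (hR : R = m / (24 * κ) + 1)
    (hK : (m + 1) * k ≤ 2 * K) (hN₀ : N₀ = 2 * K) (hT : T = N₀ + (m + 1) * k + K)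
    (hD : D = (m * T + N₀) / (k + 1) + 1) (hQ : Q = (D + k) / (m - 1))
    (hN : N = (k + 1) * (D - 1) + (m + 1) * k + 1 - m * T) :
    N + K ≤ T + 1 ∧ T ≤ D ∧ D ≤ R * T + 1 ∧ (k + 1) * (D - 1) + (m + 1) * k < m * T + N ∧
      D + k ≤ (Q + 1) * (m - 1) + 1 ∧ 30 ≤ T ∧ D * (k + 1) ≤ T ^ 2 ∧ 1 ≤ K ∧ 4 * R ≤ m := by
  obtain ⟨h1, h2, h3, h4, h5, h9, h10, h11, h12, h13, h15, h16⟩ :=
    k4_basic hκ hm hk hK hN₀ hT hD hQ
  have hR1 : m + 1 ≤ (k + 1) * R := by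
    rw [h1, hR]
    exact Nat.lt_mul_div_succ m (by omega)
  have hR2 : 4 * R ≤ m := by
    have : m / (24 * κ) ≤ m / 24 := Nat.div_le_div_left (by omega) (by norm_num)
    omega
  have h14 : D ≤ R * T + 1 := by
    have g1 : (k + 1) * (D - 1) ≤ (k + 1) * (R * T) := by
      calc (k + 1) * (D - 1) ≤ m * T + N₀ := h11
        _ ≤ (m + 1) * T := by nlinarith
        _ ≤ ((k + 1) * R) * T := Nat.mul_le_mul_right T hR1
        _ = (k + 1) * (R * T) := by ring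
    have g2 := Nat.le_of_mul_le_mul_left g1 (Nat.succ_pos k)
    omega
  have hkm : k ≤ (m + 1) * k := Nat.le_mul_of_pos_left k (Nat.succ_pos m)
  have hDk : (k + 1) * D = (k + 1) * (D - 1) + (k + 1) := by
    obtain ⟨D', rfl⟩ : ∃ D', D = D' + 1 := ⟨D - 1, by omega⟩
    rw [Nat.add_sub_cancel]
    ring
  have hTK : K ≤ T := by
    rw [hT]
    exact Nat.le_add_left _ _
  have hmT : (k + 1) * T ≤ m * T := Nat.mul_le_mul_right T (by omega)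
  refine ⟨by omega, ?_, h14, by omega, by omega, by omega, ?_, by omega, hR2⟩
  · have g1 : (k + 1) * T ≤ (k + 1) * D := by omega
    exact Nat.le_of_mul_le_mul_left g1 (Nat.succ_pos k)
  · have g1 : D * (k + 1) ≤ m * T + N₀ + k + 1 := by
      rw [mul_comm]
      omega
    have g2 : N₀ + k + 1 ≤ T := by omega
    have g3 : (m + 1) * T ≤ T * T := Nat.mul_le_mul_right T (by omega)
    have g4 : (m + 1) * T = m * T + T := by ring
    rw [pow_two]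
    omega

end Pool.Agent.MP_88e4f4_nt.TK
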