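import Pool.Agent.MP_88e4f4_nt.TK.K2
import Pool.Agent.MP_88e4f4_nt.TK.K3
import Pool.Agent.MP_88e4f4_nt.TK.K4

set_option autoImplicit false

namespace Pool.Agent.MP_88e4f4_nt.TK

open Pool.Agent.MP_88e4f4_nt.TS

/-- Two good approximations `a < x` to the same `g`-adic root, with `x` much larger than `a`, do not
exist. -/
theorem no_anchor_k {κ y m a x g μ ν K : ℕ} (hκ : 1 ≤ κ) (hm : 1000 * κ ^ 5 ≤ m) (hy : 2 ≤ y)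
    (hy13 : (y + 1) ^ 12 ≤ a ^ 13) (hg : 1 ≤ g) (hgy : g ∣ y) (hya : y ≤ a) (hax : a ≤ x)
    (hμ : (g : ℤ) ^ μ ∣ (a : ℤ) - x) (hν : (g : ℤ) ^ ν ∣ ((y : ℤ) - 1) * (x : ℤ) ^ m + x - y)
    (h1 : a ^ (m - 1) ≤ g ^ (κ * μ)) (h2 : a ^ ((m - 1) * K) ≤ g ^ (κ * ν))
    (hK : (m + 1) * (24 * κ - 1) ≤ 2 * K) (hxK : x < a ^ (K + 1)) (ha : m ^ (96 * κ) ≤ a) :
    False := by
  have hκ5 : κ ≤ κ ^ 5 := Nat.le_self_pow (by norm_num) κ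
  have hm1 : 1000 ≤ m := by
    have : 1 ≤ κ ^ 5 := Nat.one_le_pow _ _ hκ
    omega
  obtain ⟨k, hk⟩ : ∃ k, k = 24 * κ - 1 := ⟨_, rfl⟩
  obtain ⟨R, hR⟩ : ∃ R, R = m / (24 * κ) + 1 := ⟨_, rfl⟩
  obtain ⟨N₀, hN₀⟩ : ∃ N₀, N₀ = 2 * K := ⟨_, rfl⟩
  obtain ⟨T, hT⟩ : ∃ T, T = N₀ + (m + 1) * k + K := ⟨_, rfl⟩
  obtain ⟨D, hD⟩ : ∃ D, D = (m * T + N₀) / (k + 1) + 1 := ⟨_, rfl⟩
  obtain ⟨Q, hQ⟩ : ∃ Q, Q = (D + k) / (m - 1) := ⟨_, rfl⟩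
  obtain ⟨N, hN⟩ : ∃ N, N = (k + 1) * (D - 1) + (m + 1) * k + 1 - m * T := ⟨_, rfl⟩
  rw [← hk] at hK
  obtain ⟨c1, c2, c3, c4, c5, c6, c7, c8, c9⟩ := side_conditions_k hκ hm hk hR hK hN₀ hT hD hQ hN
  obtain ⟨w, hw⟩ : ∃ w, w = min ν (μ * K) := ⟨_, rfl⟩
  have hwν : w ≤ ν := by rw [hw]; exact min_le_left _ _
  have hwμ : w ≤ μ * K := by rw [hw]; exact min_le_right _ _
  obtain ⟨s, t, hst, hs, _, hmain⟩ := anchor_ineq_g (R := R) hy (by omega) hya hax c8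
    (by rw [hR]; exact Nat.le_add_left _ _) hg hgy
    hμ hν hwν hwμ c1 c2 c3 c4 c5
  have hyw : a ^ ((m - 1) * K) ≤ g ^ (κ * w) := by
    rcases min_choice ν (μ * K) with h | h
    · rw [hw, h]
      exact h2
    · rw [hw, h, ← mul_assoc, pow_mul, pow_mul]
      exact Nat.pow_le_pow_left h1 K
  have h5 : a ^ ((m - 1) * K * t) ≤ ((D * (k + 1)).factorial * ((3 * R) ^ T * (y + 1) ^ Q) ^ s *
        ((3 * R) ^ T * a ^ D * x ^ k) ^ t) ^ κ := by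
    calc a ^ ((m - 1) * K * t) = (a ^ ((m - 1) * K)) ^ t := by rw [pow_mul]
      _ ≤ (g ^ (κ * w)) ^ t := Nat.pow_le_pow_left hyw t
      _ = (g ^ (w * t)) ^ κ := by rw [← pow_mul, ← pow_mul]; congr 1; ring
      _ ≤ _ := Nat.pow_le_pow_left hmain κ
  have ha4 : (4 * R) ^ (96 * κ) ≤ a := (Nat.pow_le_pow_left c9 _).trans ha
  have e1 := exponent_ineq_k (m := m) hy hya hy13 c6 hxK ha4 hst c7 h5
  have e2 := final_numeric_k hκ hm hk hK hN₀ hT hD hQ hs hst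
  omega

end Pool.Agent.MP_88e4f4_nt.TK
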