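import Mathlib

set_option autoImplicit false

namespace Pool.Agent.MP_88e4f4_nt.TK

open Polynomial

theorem z1_sum {r : ℕ} (a : Fin r → ℕ) (σ : Equiv.Perm (Fin r)) :
    ∑ i, a i - r * (r - 1) / 2 ≤ ∑ i, (a (σ i) - (i : ℕ)) := by
  have h1 : ∑ i : Fin r, (i : ℕ) = r * (r - 1) / 2 := by
    rw [Fin.sum_univ_eq_sum_range (fun i => i) r, Finset.sum_range_id]
  have h2 : ∑ i, a (σ i) = ∑ i, a i := Equiv.sum_comp σ a
  have h3 : ∑ i, a (σ i) ≤ ∑ i, (a (σ i) - (i : ℕ)) + ∑ i : Fin r, (i : ℕ) := by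
    rw [← Finset.sum_add_distrib]
    exact Finset.sum_le_sum fun i _ => by omega
  omega

theorem z1_sum_eq {r : ℕ} (a : Fin r → ℕ) (σ : Equiv.Perm (Fin r)) (h : ∀ i : Fin r, (i : ℕ) ≤ a (σ i)) :
    ∑ i, (a (σ i) - (i : ℕ)) = ∑ i, a i - r * (r - 1) / 2 := by
  have h1 : ∑ i : Fin r, (i : ℕ) = r * (r - 1) / 2 := by
    rw [Fin.sum_univ_eq_sum_range (fun i => i) r, Finset.sum_range_id]
  have h2 : ∑ i, a (σ i) = ∑ i, a i := Equiv.sum_comp σ a
  have h3 : ∑ i, a (σ i) = ∑ i, (a (σ i) - (i : ℕ)) + ∑ i : Fin r, (i : ℕ) := by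
    rw [← Finset.sum_add_distrib]
    exact Finset.sum_congr rfl fun i _ => by have := h i; omega
  omega

/-- ROW Z1. Orders of vanishing of the rows give an order of vanishing of the Wronskian.

Proof. `derivative^[l] (Φ i)` is divisible by `(X - C β) ^ (e i - l)`
(`Polynomial.pow_sub_dvd_iterate_derivative_of_pow_dvd`, used in `TS/A4.lean`). Expand the determinant
(`Matrix.det_apply`): the term of the permutation `σ` is divisible by
`∏ i, (X - C β) ^ (e i - σ i)`-like products, whose exponent is `∑ i, (e i - l_i)` where `l` is a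
permutation of `0, …, r - 1`; this is at least `∑ i, e i - ∑ l_i = ∑ i, e i - r (r - 1) / 2`
(`Finset.sum_range_id`, `Fin.sum_univ_eq_sum_range`, `Equiv.sum_comp`). -/
theorem wronskian_dvd {F : Type*} [Field F] {r : ℕ} (Φ : Fin r → F[X]) (e : Fin r → ℕ) (β : F)
    (h : ∀ i, (X - C β) ^ (e i) ∣ Φ i) :
    (X - C β) ^ (∑ i, e i - r * (r - 1) / 2) ∣
      (Matrix.of fun i l : Fin r => derivative^[(l : ℕ)] (Φ i)).det := by
  rw [Matrix.det_apply]
  refine Finset.dvd_sum fun σ _ => ?_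
  rw [Units.smul_def, zsmul_eq_mul]
  refine Dvd.dvd.mul_left ?_ _
  refine (pow_dvd_pow _ (z1_sum e σ)).trans ?_
  rw [← Finset.prod_pow_eq_pow_sum]
  refine Finset.prod_dvd_prod_of_dvd _ _ fun i _ => ?_
  rw [Matrix.of_apply]
  exact pow_sub_dvd_iterate_derivative_of_pow_dvd (i : ℕ) (h (σ i))

/-- ROW Z1 (second part). The degree of the Wronskian.

Proof. Each term of the expansion is, up to sign, `∏ derivative^[l_i] (Φ i)` with `l` a permutation of
`0, …, r - 1`. If `l_i > (Φ i).natDegree` for some `i` the term is `0` (`iterate_derivative_eq_zero`).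
Otherwise its degree is at most `∑ ((Φ i).natDegree - l_i) = ∑ (Φ i).natDegree - r (r - 1) / 2`
(`natDegree_iterate_derivative`, `natDegree_prod_le`, `natDegree_sum_le_of_forall_le`). -/
theorem wronskian_natDegree {F : Type*} [Field F] {r : ℕ} (Φ : Fin r → F[X]) :
    (Matrix.of fun i l : Fin r => derivative^[(l : ℕ)] (Φ i)).det.natDegree ≤
      ∑ i, (Φ i).natDegree - r * (r - 1) / 2 := by
  rw [Matrix.det_apply]
  refine natDegree_sum_le_of_forall_le _ _ fun σ _ => ?_
  rw [Units.smul_def, zsmul_eq_mul]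
  refine (natDegree_mul_le).trans ?_
  rw [natDegree_intCast, zero_add]
  by_cases h : ∀ i : Fin r, (i : ℕ) ≤ (Φ (σ i)).natDegree
  · rw [← z1_sum_eq (fun i => (Φ i).natDegree) σ h]
    refine (natDegree_prod_le _ _).trans (Finset.sum_le_sum fun i _ => ?_)
    rw [Matrix.of_apply]
    exact natDegree_iterate_derivative _ _
  · push Not at h
    obtain ⟨i, hi⟩ := h
    rw [Finset.prod_eq_zero (Finset.mem_univ i), natDegree_zero]
    · exact Nat.zero_le _
    · rw [Matrix.of_apply]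
      exact iterate_derivative_eq_zero hi

end Pool.Agent.MP_88e4f4_nt.TK
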