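import Pool.Agent.MP_88e4f4_nt.TK.Z1
import Pool.Agent.MP_88e4f4_nt.TS.A2
import Pool.Agent.MP_88e4f4_nt.TS.A4

set_option autoImplicit false

namespace Pool.Agent.MP_88e4f4_nt.TK

open Polynomial Pool.Agent.MP_88e4f4_nt.TS

theorem z2_mono {r : ℕ} (hr : 0 < r) (i : Fin r → ℕ) (hi : StrictMono i) :
    ∀ (n : ℕ) (hn : n < r), i ⟨0, hr⟩ + n ≤ i ⟨n, hn⟩ := by
  intro n
  induction n with
  | zero => intro hn; simp
  | succ n ih =>
    intro hn
    have h1 := ih (by omega)
    have h2 : i ⟨n, by omega⟩ < i ⟨n + 1, hn⟩ := hi (by simp [Fin.lt_def])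
    omega

theorem z2_natDegree {F : Type*} [Field F] (i n : ℕ) (B : F[X]) (hB : B ≠ 0) :
    ((X - C (1 : F)) ^ i * X ^ n * B).natDegree = i + n + B.natDegree := by
  have h1 : (X - C (1 : F)) ^ i ≠ 0 := pow_ne_zero _ (X_sub_C_ne_zero 1)
  have h2 : (X : F[X]) ^ n ≠ 0 := pow_ne_zero _ X_ne_zero
  rw [natDegree_mul (mul_ne_zero h1 h2) hB, natDegree_mul h1 h2, natDegree_pow,
    natDegree_X_sub_C, natDegree_X_pow, mul_one]

theorem z2_coprime {F : Type*} [Field F] {x y : F} (h : x ≠ y) (a b : ℕ) :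
    IsCoprime ((X - C x) ^ a) ((X - C y) ^ b) :=
  (isCoprime_X_sub_C_of_isUnit_sub (sub_ne_zero.2 h).isUnit).pow

/-- adding all rows to the row `z` does not change the Wronskian -/
theorem z2_update {F : Type*} [Field F] {r : ℕ} (Φ : Fin r → F[X]) (z : Fin r) :
    (Matrix.of fun i l : Fin r => derivative^[(l : ℕ)]
      (Function.update Φ z (∑ a, Φ a) i)).det =
    (Matrix.of fun i l : Fin r => derivative^[(l : ℕ)] (Φ i)).det := by
  classical
  set M : Matrix (Fin r) (Fin r) F[X] := Matrix.of fun i l : Fin r => derivative^[(l : ℕ)] (Φ i)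
    with hM
  have h3 := Matrix.det_updateRow_sum M z (fun _ => (1 : F[X]))
  rw [one_smul] at h3
  rw [← h3]
  congr 1
  funext a l
  rw [Matrix.of_apply]
  by_cases ha : a = z
  · subst ha
    rw [Function.update_self, Matrix.updateRow_self, Finset.sum_apply, iterate_derivative_sum]
    refine Finset.sum_congr rfl ?_
    intro b _
    rw [Pi.smul_apply, one_smul, hM, Matrix.of_apply]
  · rw [Function.update_of_ne ha, Matrix.updateRow_ne ha, hM, Matrix.of_apply]

/-- ROW Z2. Zero estimate on the curve, in terms of a family `Φ 0, …, Φ (r - 1)` of polynomials.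

Here `Φ a = (X - 1) ^ (i a) * X ^ (m (d - i a)) * B a` with `i` strictly increasing, `i a ≤ d`,
`B a ≠ 0` of degree `≤ k ≤ m - 2`.

Proof. Let `W` be the Wronskian determinant of the `Φ a`. The degrees
`(Φ a).natDegree = i a + m (d - i a) + (B a).natDegree` are distinct: for `a < b` the difference is
`(m - 1)(i b - i a) + (B a).natDegree - (B b).natDegree ≥ m - 1 - k > 0`. So `W ≠ 0`
(`wronskian_ne_zero_of_distinct`). Let `q = r (r - 1) / 2`.
(1) `X ^ (∑ m (d - i a) - q) ∣ W` (`wronskian_dvd` with `β = 0`).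
(2) `(X - 1) ^ (L + ∑ (a ≠ 0), i a - q) ∣ W`: replace the row `0` by the sum `S = ∑ Φ a` of all rows
(`Matrix.det_updateRow_sum`-type lemma, used in the proof of `pow_dvd_wronskian` in `TS/A4.lean`; the
determinant is the same); `(X - 1) ^ L ∣ S`, `(X - 1) ^ (i a) ∣ Φ a`; use `wronskian_dvd` for the
family `Function.update Φ 0 S` and `e = Function.update i 0 L`.
(3) `(X - u) ^ (H - (r - 1)) ∣ W`: `pow_dvd_wronskian` with `v a = c ^ (i a)`.
(4) `W.natDegree ≤ ∑ (i a + m (d - i a) + k) - q` (`wronskian_natDegree`).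
The three factors are pairwise coprime (`u ≠ 0, 1`), so their product divides `W` and, comparing degrees,
`∑ m (d - i a) - q + (L + ∑ (a ≠ 0), i a - q) + (H - (r - 1)) ≤ ∑ (i a + m (d - i a) + k) - q`.
Note `q ≤ ∑ (i a + m (d - i a) + k)`: the degrees of the `Φ a` are distinct, or `i a ≥ a`.
Hence `L + H ≤ i 0 + r k + q + (r - 1)`, and `i 0 + (r - 1) ≤ d`. So
`2 (L + H) ≤ 2 d + 2 r k + r (r - 1) ≤ 2 (d + 1) k + d (d + 3)` (`r ≤ d + 1`). -/
theorem curve_est_aux {F : Type*} [Field F] [CharZero F] {m d k L H r : ℕ} (hr : 1 ≤ r)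
    (hk : k + 2 ≤ m) (u c : F) (hu0 : u ≠ 0) (hu1 : u ≠ 1) (hc : c ≠ 0)
    (i : Fin r → ℕ) (hi : StrictMono i) (hid : ∀ a, i a ≤ d) (B : Fin r → F[X])
    (hB : ∀ a, (B a).natDegree ≤ k) (hB0 : ∀ a, B a ≠ 0)
    (h1 : (X - C 1) ^ L ∣ ∑ a, (X - C 1) ^ (i a) * X ^ (m * (d - i a)) * B a)
    (h2 : (X - C u) ^ H ∣ ∑ a, C (c ^ (i a)) * ((X - C 1) ^ (i a) * X ^ (m * (d - i a)) * B a)) :
    2 * (L + H) ≤ 2 * (d + 1) * k + d * (d + 3) := by
  classical
  have hr0 : 0 < r := hr
  set z : Fin r := ⟨0, hr0⟩ with hz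
  obtain ⟨Φ, hΦ⟩ : ∃ Φ : Fin r → F[X], Φ = fun a =>
      (X - C 1) ^ (i a) * X ^ (m * (d - i a)) * B a := ⟨_, rfl⟩
  have hΦa : ∀ a, Φ a = (X - C 1) ^ (i a) * X ^ (m * (d - i a)) * B a := fun a => by rw [hΦ]
  obtain ⟨W, hW⟩ : ∃ W : F[X], W =
      (Matrix.of fun i l : Fin r => derivative^[(l : ℕ)] (Φ i)).det := ⟨_, rfl⟩
  have hnd : ∀ a, (Φ a).natDegree = i a + m * (d - i a) + (B a).natDegree := fun a => by
    rw [hΦa, z2_natDegree _ _ _ (hB0 a)]
  have hΦ0 : ∀ a, Φ a ≠ 0 := by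
    intro a
    rw [hΦa]
    exact mul_ne_zero (mul_ne_zero (pow_ne_zero _ (X_sub_C_ne_zero 1))
      (pow_ne_zero _ X_ne_zero)) (hB0 a)
  -- distinct degrees
  have hanti : ∀ a b, a < b → (Φ b).natDegree < (Φ a).natDegree := by
    intro a b hab
    rw [hnd, hnd]
    have g1 := hi hab
    have g2 := hid b
    have g3 := hB b
    obtain ⟨s, hs⟩ : ∃ s, i b = i a + s + 1 := ⟨i b - i a - 1, by omega⟩
    have g4 : d - i a = (d - i b) + s + 1 := by omega
    rw [g4, hs]
    have g5 : m * (d - i b + s + 1) = m * (d - i b) + m * s + m := by ring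
    rw [← hs]
    rw [g5]
    have g6 : s ≤ m * s := Nat.le_mul_of_pos_left s (by omega)
    omega
  have hinj : Function.Injective fun a => (Φ a).natDegree := by
    intro a b hab
    simp only at hab
    rcases lt_trichotomy a b with h | h | h
    · have := hanti a b h
      omega
    · exact h
    · have := hanti b a h
      omega
  have hW0 : W ≠ 0 := by
    rw [hW]
    exact wronskian_ne_zero_of_distinct Φ hΦ0 hinj
  -- (1)
  have d1 : (X - C (0 : F)) ^ (∑ a, m * (d - i a) - r * (r - 1) / 2) ∣ W := by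
    rw [hW]
    apply wronskian_dvd Φ (fun a => m * (d - i a)) 0
    intro a
    rw [hΦa, C_0, sub_zero]
    exact Dvd.dvd.mul_right (Dvd.intro_left _ rfl) _
  -- (2)
  have d2 : (X - C (1 : F)) ^ (∑ a, Function.update i z L a - r * (r - 1) / 2) ∣ W := by
    rw [hW, ← z2_update Φ z]
    apply wronskian_dvd (Function.update Φ z (∑ a, Φ a)) (Function.update i z L) 1
    intro a
    by_cases ha : a = z
    · subst ha
      rw [Function.update_self, Function.update_self, hΦ]
      exact h1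
    · rw [Function.update_of_ne ha, Function.update_of_ne ha, hΦa]
      exact Dvd.dvd.mul_right (Dvd.intro _ rfl) _
  have hsum2 : (∑ a, Function.update i z L a) + i z = L + ∑ a, i a := by
    rw [Finset.sum_update_of_mem (Finset.mem_univ z)]
    have : ∑ a, i a = i z + ∑ a ∈ Finset.univ \ {z}, i a := by
      have h := Finset.add_sum_erase Finset.univ i (Finset.mem_univ z)
      rw [← h, Finset.sdiff_singleton_eq_erase]
    rw [this]
    ring
  -- (3)
  have d3 : (X - C u) ^ (H - (r - 1)) ∣ W := by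
    rw [hW]
    apply pow_dvd_wronskian Φ (fun a => c ^ (i a)) _ u
    · rw [hΦ]
      exact h2
    · intro h
      have := congrFun h z
      exact pow_ne_zero _ hc this
  -- (4)
  have d4 : W.natDegree ≤ ∑ a, (Φ a).natDegree - r * (r - 1) / 2 := by
    rw [hW]
    exact wronskian_natDegree Φ
  -- the product
  have d12 := (z2_coprime (F := F) (x := 0) (y := 1) (by norm_num)
    (∑ a, m * (d - i a) - r * (r - 1) / 2)
    (∑ a, Function.update i z L a - r * (r - 1) / 2)).mul_dvd d1 d2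
  have hcop3 : IsCoprime ((X - C (0 : F)) ^ (∑ a, m * (d - i a) - r * (r - 1) / 2) *
      (X - C (1 : F)) ^ (∑ a, Function.update i z L a - r * (r - 1) / 2))
      ((X - C u) ^ (H - (r - 1))) :=
    IsCoprime.mul_left (z2_coprime hu0.symm _ _) (z2_coprime hu1.symm _ _)
  have d123 := hcop3.mul_dvd d12 d3
  have hdeg := natDegree_le_of_dvd d123 hW0
  have n1 : (X - C (0 : F)) ^ (∑ a, m * (d - i a) - r * (r - 1) / 2) ≠ 0 :=
    pow_ne_zero _ (X_sub_C_ne_zero 0)
  have n2 : (X - C (1 : F)) ^ (∑ a, Function.update i z L a - r * (r - 1) / 2) ≠ 0 :=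
    pow_ne_zero _ (X_sub_C_ne_zero 1)
  have n3 : (X - C u) ^ (H - (r - 1)) ≠ 0 := pow_ne_zero _ (X_sub_C_ne_zero u)
  rw [natDegree_mul (mul_ne_zero n1 n2) n3, natDegree_mul n1 n2, natDegree_pow, natDegree_pow,
    natDegree_pow, natDegree_X_sub_C, natDegree_X_sub_C, natDegree_X_sub_C, mul_one, mul_one,
    mul_one] at hdeg
  -- sums
  have hq2 : r * (r - 1) / 2 * 2 = r * (r - 1) := by
    rw [← Finset.sum_range_id, Finset.sum_range_id_mul_two]
  have hsumi : r * (r - 1) / 2 ≤ ∑ a, i a := by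
    rw [← Finset.sum_range_id, ← Fin.sum_univ_eq_sum_range (fun j => j) r]
    apply Finset.sum_le_sum
    intro a _
    have h7 : i ⟨0, hr0⟩ + (a : ℕ) ≤ i a := z2_mono hr0 i hi a a.2
    omega
  have hsumn : ∑ a, (Φ a).natDegree ≤ ∑ a, i a + ∑ a, m * (d - i a) + r * k := by
    have : ∑ a, (Φ a).natDegree ≤ ∑ a, (i a + m * (d - i a) + k) := by
      apply Finset.sum_le_sum
      intro a _
      rw [hnd]
      have := hB a
      omega
    refine this.trans_eq ?_
    rw [Finset.sum_add_distrib, Finset.sum_add_distrib, Finset.sum_const, Finset.card_univ,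
      Fintype.card_fin, smul_eq_mul]
  have hsumn2 : ∑ a, i a ≤ ∑ a, (Φ a).natDegree := by
    apply Finset.sum_le_sum
    intro a _
    rw [hnd]
    omega
  have hlast := z2_mono hr0 i hi (r - 1) (by omega)
  have hlast2 := hid ⟨r - 1, by omega⟩
  have hzz : i ⟨0, hr0⟩ = i z := rfl
  rw [hzz] at hlast
  generalize ∑ a, (Φ a).natDegree = T at *
  generalize ∑ a, Function.update i z L a = U at *
  generalize ∑ a, m * (d - i a) = V at *
  generalize ∑ a, i a = I at *
  generalize hqq : r * (r - 1) / 2 = q at *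
  have hfin : L + H ≤ d + r * k + q := by omega
  have hrd : r ≤ d + 1 := by omega
  have e1 : r * k ≤ (d + 1) * k := Nat.mul_le_mul_right k hrd
  have e2 : r * (r - 1) ≤ (d + 1) * d := Nat.mul_le_mul hrd (by omega)
  have e3 : d * (d + 3) = 2 * d + (d + 1) * d := by ring
  have e4 : 2 * (d + 1) * k = 2 * ((d + 1) * k) := by ring
  rw [e3, e4]
  omega

end Pool.Agent.MP_88e4f4_nt.TK
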