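import Pool.Agent.MP_88e4f4_nt.TK.Z2

set_option autoImplicit false

namespace Pool.Agent.MP_88e4f4_nt.TK

open Polynomial

/-- ROW Z3. Zero estimate on the curve.

Proof. Let `I = {i ∈ range (d + 1) | B i ≠ 0}`, `r = I.card ≥ 1`, and let `i : Fin r → ℕ` be the
increasing enumeration of `I` (`Finset.orderEmbOfFin`). The sums over `range (d + 1)` are sums over `I`
(the other terms vanish), i.e. sums over `Fin r`. Apply `curve_est_aux`. -/
theorem curve_est {F : Type*} [Field F] [CharZero F] {m d k L H : ℕ}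
    (hk : k + 2 ≤ m) (u c : F) (hu0 : u ≠ 0) (hu1 : u ≠ 1) (hc : c ≠ 0) (B : ℕ → F[X])
    (hB : ∀ i ≤ d, (B i).natDegree ≤ k) (hB0 : ∃ i ≤ d, B i ≠ 0)
    (h1 : (X - C 1) ^ L ∣ ∑ i ∈ Finset.range (d + 1), (X - C 1) ^ i * X ^ (m * (d - i)) * B i)
    (h2 : (X - C u) ^ H ∣ ∑ i ∈ Finset.range (d + 1),
      C (c ^ i) * ((X - C 1) ^ i * X ^ (m * (d - i)) * B i)) :
    2 * (L + H) ≤ 2 * (d + 1) * k + d * (d + 3) := by
  classical
  obtain ⟨I, hI⟩ : ∃ I : Finset ℕ, I = (Finset.range (d + 1)).filter (fun i => B i ≠ 0) := ⟨_, rfl⟩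
  have hsum : ∀ G : ℕ → F[X], (∀ i, B i = 0 → G i = 0) →
      ∑ i ∈ Finset.range (d + 1), G i = ∑ a : Fin I.card, G (I.orderEmbOfFin rfl a) := by
    intro G hG
    have h3 : ∑ i ∈ Finset.range (d + 1), G i = ∑ i ∈ I, G i := by
      rw [hI]
      refine (Finset.sum_filter_of_ne ?_).symm
      intro i _ hi hB
      exact hi (hG i hB)
    have h4 := Finset.map_orderEmbOfFin_univ I rfl
    calc ∑ i ∈ Finset.range (d + 1), G i = ∑ i ∈ I, G i := h3
      _ = ∑ i ∈ Finset.map (I.orderEmbOfFin rfl).toEmbedding Finset.univ, G i := by rw [h4]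
      _ = ∑ a : Fin I.card, G (I.orderEmbOfFin rfl a) := Finset.sum_map _ _ _
  have hmem : ∀ a : Fin I.card, I.orderEmbOfFin rfl a ≤ d ∧ B (I.orderEmbOfFin rfl a) ≠ 0 := by
    intro a
    have h3 : I.orderEmbOfFin rfl a ∈ I := Finset.orderEmbOfFin_mem I rfl a
    have h4 : ∀ n, n ∈ I → n ≤ d ∧ B n ≠ 0 := by
      intro n hn
      rw [hI, Finset.mem_filter, Finset.mem_range] at hn
      exact ⟨by omega, hn.2⟩
    exact h4 _ h3
  have hr : 1 ≤ I.card := by
    obtain ⟨i, hi, hi0⟩ := hB0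
    refine Finset.card_pos.2 ⟨i, ?_⟩
    rw [hI, Finset.mem_filter, Finset.mem_range]
    exact ⟨by omega, hi0⟩
  rw [hsum _ (fun i hi => by rw [hi, mul_zero])] at h1
  rw [hsum _ (fun i hi => by rw [hi, mul_zero, mul_zero])] at h2
  exact curve_est_aux hr hk u c hu0 hu1 hc (fun a => I.orderEmbOfFin rfl a)
    (I.orderEmbOfFin rfl).strictMono (fun a => (hmem a).1) (fun a => B (I.orderEmbOfFin rfl a))
    (fun a => hB _ (hmem a).1) (fun a => (hmem a).2) h1 h2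

end Pool.Agent.MP_88e4f4_nt.TK
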